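import Pool.Agent.NJ.B.M13

/-!
S19271, target B: the form of the slab entropies on words (`w2`, `Rt`, newest letter first) and the form
on laws (`Ph`, newest letter last) agree.
-/

set_option autoImplicit false

namespace Pool.Agent.NJ.B

open Finset Pool.Agent.CutSeq

variable {n B L t : ℕ}

/-- reversed letters -/
def rv (lam : Wd B t) : Wd B t := fun i => lam (Fin.rev i)

theorem rv_rv (lam : Wd B t) : rv (rv lam) = lam := by
  funext i
  unfold rv
  rw [Fin.rev_rev]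

theorem rxs_congr {α β : Seq} (S : ℕ) (h : ∀ i < S, α i = β i) (R : V n) :
    rxs α S R = rxs β S R := by
  induction S with
  | zero => rfl
  | succ S ih =>
      show rx (α S) (rxs α S R) = rx (β S) (rxs β S R)
      rw [h S (Nat.lt_succ_self S), ih fun i hi => h i (by omega)]

theorem ext_rv_cns (p : Fin B × ZMod 2) (lam : Wd B t) (i : ℕ) (hi : i < t) :
    ext (rv (CutSeq.NJ.cns p lam)) i = ext (rv lam) i := by
  unfold CutSeq.ext
  rw [dif_pos (by omega : i < t + 1), dif_pos hi]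
  have h : rv (CutSeq.NJ.cns p lam) ⟨i, by omega⟩ = rv lam ⟨i, hi⟩ := by
    unfold rv
    have e : Fin.rev (⟨i, by omega⟩ : Fin (t + 1)) = (Fin.rev (⟨i, hi⟩ : Fin t)).succ := by
      apply Fin.ext
      simp only [Fin.val_rev, Fin.val_succ]
      omega
    rw [e]
    rfl
  rw [h]

theorem ext_rv_cns_last (p : Fin B × ZMod 2) (lam : Wd B t) :
    ext (rv (CutSeq.NJ.cns p lam)) t = (p.1.val, p.2) := by
  unfold CutSeq.ext
  rw [dif_pos (Nat.lt_succ_self t)]
  have h : rv (CutSeq.NJ.cns p lam) ⟨t, Nat.lt_succ_self t⟩ = p := by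
    unfold rv
    have e : Fin.rev (⟨t, Nat.lt_succ_self t⟩ : Fin (t + 1)) = 0 := by
      apply Fin.ext
      simp only [Fin.val_rev, Fin.val_zero]
      omega
    rw [e]
    rfl
  rw [h]

/-- `Rt` as an iteration of letters -/
theorem Rt_rxs : ∀ (t : ℕ) (om : Wd B L) (lam : Wd B t),
    CutSeq.NJ.Rt n (om, lam) = rxs (ext (rv lam)) t (row (ext om) L n) := by
  intro t
  induction t with
  | zero =>
      intro om lam
      exact CutSeq.NJ.Rt_zero (om, lam)
  | succ t ih =>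
      intro om lam
      have h : lam = CutSeq.NJ.cns (lam 0) (fun i => lam i.succ) := (Fin.cons_self_tail lam).symm
      rw [h, CutSeq.NJ.Rt_cns, ih om, ← rx_eq]
      show _ = rx (ext (rv (CutSeq.NJ.cns (lam 0) fun i => lam i.succ)) t) (rxs _ t _)
      rw [ext_rv_cns_last]
      congr 1
      exact rxs_congr t (fun i hi => (ext_rv_cns _ _ i hi).symm) _

/-- change of variables -/
theorem KK_equiv {Ω Ω' A C : Type*} [Fintype Ω] [Fintype Ω'] [Fintype A] (e : Ω ≃ Ω') (w : Ω → ℝ)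
    (w' : Ω' → ℝ) (hw : ∀ ω, w ω = w' (e ω)) (X : Ω' → A) (Y : Ω' → C) :
    KK w (fun ω => X (e ω)) (fun ω => Y (e ω)) = KK w' X Y := by
  classical
  refine KK_law _ _ _ _ _ _ fun a c => ?_
  rw [Brg.mass_eq, Brg.mass_eq, ← e.sum_comp]
  exact sum_congr rfl fun ω _ => by rw [hw]

/-- bijective change of the data -/
theorem KK_cond {Ω A C C' : Type*} [Fintype Ω] [Fintype A] (w : Ω → ℝ) (hw : ∀ ω, 0 ≤ w ω)
    (X : Ω → A) (Y : Ω → C) (Y' : Ω → C') (h : ∀ ω ω', Y ω = Y ω' ↔ Y' ω = Y' ω') :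
    KK w X Y = KK w X Y' :=
  le_antisymm (KK_finer w hw X Y Y' fun ω ω' _ _ e => (h ω ω').2 e)
    (KK_finer w hw X Y' Y fun ω ω' _ _ e => (h ω ω').1 e)

/-- law of the pair times uniform letters -/
theorem KK_lwp2 {A C : Type*} [Fintype A] (l S : ℕ) (X : (Un n × V n) × Wd B S → A)
    (Y : (Un n × V n) × Wd B S → C) :
    KK (fun q : (Un n × V n) × Wd B S => lwp B l n q.1 * uw B S q.2) X Y
      = KK (CutSeq.NJ.w2 B l S) (fun q => X ((mm (ext q.1) l n, row (ext q.1) l n), q.2))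
        (fun q => Y ((mm (ext q.1) l n, row (ext q.1) l n), q.2)) := by
  classical
  refine KK_law _ _ _ _ _ _ fun a c => ?_
  have hL : mass (fun q : (Un n × V n) × Wd B S => lwp B l n q.1 * uw B S q.2)
      (fun q => (X q, Y q)) (a, c) = ∑ lam : Wd B S, ∑ x : Un n × V n,
        if (X (x, lam), Y (x, lam)) = (a, c) then lwp B l n x * uw B S lam else 0 := by
    rw [Brg.mass_eq, Fintype.sum_prod_type, Finset.sum_comm]
  have hR : mass (CutSeq.NJ.w2 B l S) (fun q => (X ((mm (ext q.1) l n, row (ext q.1) l n), q.2),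
      Y ((mm (ext q.1) l n, row (ext q.1) l n), q.2))) (a, c) = ∑ lam : Wd B S, ∑ ω : Wd B l,
        if (X ((mm (ext ω) l n, row (ext ω) l n), lam),
        Y ((mm (ext ω) l n, row (ext ω) l n), lam)) = (a, c) then CutSeq.NJ.w2 B l S (ω, lam)
        else 0 := by
    rw [Brg.mass_eq, Fintype.sum_prod_type, Finset.sum_comm]
  rw [hL, hR]
  have h0 : ∀ lam : Wd B S, (∑ x : Un n × V n,
      if (X (x, lam), Y (x, lam)) = (a, c) then lwp B l n x * uw B S lam else 0)
      = ∑ ω : Wd B l, if (X ((mm (ext ω) l n, row (ext ω) l n), lam),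
        Y ((mm (ext ω) l n, row (ext ω) l n), lam)) = (a, c) then CutSeq.NJ.w2 B l S (ω, lam)
        else 0 := by
    intro lam
    have h := Brg.sum_mass_mul (uw B l) (fun ω => (mm (ext ω) l n, row (ext ω) l n))
      (fun x => if (X (x, lam), Y (x, lam)) = (a, c) then uw B S lam else 0)
    simp only [mul_ite, mul_zero] at h
    exact h
  exact Finset.sum_congr rfl fun lam _ => h0 lam

/-- **the bridge** -/
theorem Ph_eq_w2 (l S b : ℕ) : Ph B b (lwp B l n) S
    = KK (CutSeq.NJ.w2 B l S) (fun q => CutSeq.NJ.pfx b (CutSeq.NJ.Rt n q))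
        (fun q => (mm (ext q.1) l n, q.2)) := by
  unfold Ph
  rw [KK_lwp2]
  have h := KK_equiv ((Equiv.refl (Wd B l)).prodCongr (⟨rv, rv, rv_rv, rv_rv⟩ : Wd B S ≃ Wd B S))
    (CutSeq.NJ.w2 B l S) (CutSeq.NJ.w2 B l S) (fun q => by
      rw [CutSeq.NJ.w2_eq, CutSeq.NJ.w2_eq])
    (fun q => pfx b (rxs (ext q.2) S (row (ext q.1) l n))) (fun q => (mm (ext q.1) l n, q.2))
  rw [← h]
  have h2 : KK (CutSeq.NJ.w2 B l S) (fun q => CutSeq.NJ.pfx b (CutSeq.NJ.Rt n q))
        (fun q => (mm (ext q.1) l n, q.2))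
      = KK (CutSeq.NJ.w2 B l S) (fun q => CutSeq.NJ.pfx b (CutSeq.NJ.Rt n q))
        (fun q => (mm (ext q.1) l n, rv q.2)) := by
    refine KK_cond _ CutSeq.NJ.w2_nonneg _ _ _ fun q q' => ?_
    rw [Prod.mk.injEq, Prod.mk.injEq]
    constructor
    · rintro ⟨h1, h2⟩
      exact ⟨h1, by rw [h2]⟩
    · rintro ⟨h1, h2⟩
      exact ⟨h1, by rw [← rv_rv q.2, h2, rv_rv]⟩
  rw [h2]
  refine congrArg (fun X => KK (CutSeq.NJ.w2 B l S) X (fun q => (mm (ext q.1) l n, rv q.2))) ?_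
  funext q
  show pfx b (rxs (ext (rv q.2)) S (row (ext q.1) l n)) = _
  rw [← Rt_rxs S q.1 q.2]
  rfl

/-- the left side of (UP) in both forms -/
theorem sum_drop_w2 (l S : ℕ) :
    ∑ b ∈ range (n + 1), (KK (uw B l) (fun ω => CutSeq.NJ.pfx b (row (ext ω) l n))
        (fun ω => mm (ext ω) l n) - KK (CutSeq.NJ.w2 B l S)
        (fun q => CutSeq.NJ.pfx b (CutSeq.NJ.Rt n q)) (fun q => (mm (ext q.1) l n, q.2)))
      = ∑ b ∈ range (n + 1), (FF b (lwp B l n) - Ph B b (lwp B l n) S) := by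
  refine sum_congr rfl fun b _ => ?_
  rw [Ph_eq_w2, FF_lwp]
  rfl

/-- the right side of (UP): the row defect at the top -/
theorem FF_top_w2 (l : ℕ) : FF n (lwp B l n)
    = KK (uw B l) (fun ω => row (ext ω) l n) (fun ω => mm (ext ω) l n) := by
  rw [FF_lwp]
  simp only [pfx_self]

end Pool.Agent.NJ.B
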