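import Pool.Agent.NJ.B.Defs16
import Pool.Agent.NJ.LC58

/-!
S19271, target B, rows C5 (`Dl_le`) and C6 (`prod_step`) (helper58).
-/

set_option autoImplicit false

namespace Pool.Agent.NJ.B

open Finset Pool.Agent.CutSeq Pool.Agent.CutSeq.NJ

lemma rx_rx58 {n : ℕ} (p : ℕ × ZMod 2) (R : V n) : rx p (rx p R) = R := by
  funext j
  unfold rx
  by_cases h : j.val = p.1
  · simp only [if_pos h]
    by_cases h2 : j.val + 1 < n
    · have h3 : ¬ (j.val + 1 = p.1) := by omega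
      simp only [dif_pos h2, if_neg h3]
      rw [add_assoc, CharTwo.add_self_eq_zero, add_zero]
    · simp only [dif_neg h2]
      rw [add_assoc, CharTwo.add_self_eq_zero, add_zero]
  · simp only [if_neg h]

lemma rxU_rxU58 {n : ℕ} (p : ℕ × ZMod 2) (A : Un n) : rxU p (rxU p A) = A := by
  funext k
  exact rx_rx58 p (A k)

lemma rxP_rxP58 {n : ℕ} (p : ℕ × ZMod 2) (x : Un n × V n) : rxP p (rxP p x) = x := by
  unfold rxP
  simp only [rxU_rxU58, rx_rx58]

lemma rx_zero58 {n : ℕ} (b : ℕ) (R : V n) : rx (b, 0) R = R := by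
  funext j
  unfold rx
  by_cases h : j.val = b
  · simp only [if_pos h, zero_mul, add_zero]
  · simp only [if_neg h]

lemma rxP_zero58 {n : ℕ} (b : ℕ) (x : Un n × V n) : rxP (b, 0) x = x := by
  unfold rxP
  have h1 : rxU (b, 0) x.1 = x.1 := by
    funext k
    exact rx_zero58 b (x.1 k)
  rw [h1, rx_zero58]

lemma pfx_rx58 {n : ℕ} (β : ℕ) (ξ : ZMod 2) (R : V n) : pfx β (rx (β, ξ) R) = pfx β R := by
  funext j
  unfold pfx
  by_cases h : j.val < n
  · simp only [dif_pos h]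
    unfold rx
    have h2 : ¬ (j.val = β) := by have := j.isLt; omega
    simp only [if_neg h2]
  · simp only [dif_neg h]

/-- relative entropy of the identity -/
lemma K0_id58 {S : Type*} [Fintype S] (μ : S → ℝ) (hμ : ∀ x, 0 ≤ μ x) :
    K0 μ id = tot μ * Real.log (Fintype.card S) + ent μ - tot μ * Real.log (tot μ) := by
  classical
  rw [K0_eq]
  have hm : ∀ x, mass μ id (id x) = μ x := by
    intro x
    unfold mass
    simp
  have h1 : ∀ x ∈ (Finset.univ : Finset S), μ x * Real.log (Fintype.card S * mass μ id (id x) / tot μ) =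
      μ x * Real.log (Fintype.card S) + μ x * Real.log (μ x) - μ x * Real.log (tot μ) := by
    intro x _
    rw [hm]
    by_cases h : μ x = 0
    · simp [h]
    · have h2 : tot μ ≠ 0 := by
        have h3 : 0 < μ x := lt_of_le_of_ne (hμ x) (Ne.symm h)
        exact (lt_of_lt_of_le h3 (le_tot μ hμ x)).ne'
      have h4 : (Fintype.card S : ℝ) ≠ 0 := by
        have : Nonempty S := ⟨x⟩
        exact_mod_cast Fintype.card_ne_zero
      rw [Real.log_div (mul_ne_zero h4 h) h2, Real.log_mul h4 h]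
      ring
  rw [Finset.sum_congr rfl h1, Finset.sum_sub_distrib, Finset.sum_add_distrib, ← Finset.sum_mul,
    ← Finset.sum_mul]
  rfl

lemma phi_eq58 {n : ℕ} (β : ℕ) (μ : Un n × V n → ℝ) (hμ : ∀ x, 0 ≤ μ x) :
    phi β μ = ent μ - ent (avg2 (rxP (β, 1)) μ) := by
  have h0 : ∀ x, 0 ≤ (μ x + μ (rxP (β, 1) x)) / 2 := fun x => by
    linarith [hμ x, hμ (rxP (β, 1) x)]
  have ht : tot (fun x => (μ x + μ (rxP (β, 1) x)) / 2) = tot μ := by
    unfold tot
    have hs : ∑ x, μ (rxP (β, 1) x) = ∑ x, μ x :=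
      Equiv.sum_comp (⟨rxP (β, 1), rxP (β, 1), rxP_rxP58 _, rxP_rxP58 _⟩ :
        (Un n × V n) ≃ (Un n × V n)) μ
    rw [← Finset.sum_div, Finset.sum_add_distrib, hs]
    ring
  unfold phi
  rw [K0_id58 μ hμ, K0_id58 _ h0, ht]
  have h1 : ent (fun x => (μ x + μ (rxP (β, 1) x)) / 2) = ent (avg2 (rxP (β, 1)) μ) := rfl
  rw [h1]
  ring

lemma phi_nonneg58 {n : ℕ} (β : ℕ) (μ : Un n × V n → ℝ) (hμ : ∀ x, 0 ≤ μ x) : 0 ≤ phi β μ := by
  rw [phi_eq58 β μ hμ]
  have := ent_avg2_le μ hμ (rxP (β, 1)) (rxP_rxP58 _)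
  linarith

/-- splitting the last entry -/
def splV58 (b : ℕ) : V (b + 1) ≃ V b × ZMod 2 where
  toFun x := (fun j => x j.castSucc, x (Fin.last b))
  invFun z := Fin.snoc (α := fun _ => ZMod 2) z.1 z.2
  left_inv := by
    intro x
    funext j
    refine Fin.lastCases ?_ (fun j => ?_) j
    · simp
    · simp
  right_inv := by
    rintro ⟨z, c⟩
    simp

lemma splV_pfx58 {n b : ℕ} (hb : b < n) (R : V n) : splV58 b (pfx (b + 1) R) = (pfx b R, R ⟨b, hb⟩) := by
  unfold splV58 pfx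
  simp only [Equiv.coe_fn_mk, Prod.mk.injEq]
  refine ⟨?_, ?_⟩
  · funext j
    simp only [Fin.val_castSucc]
  · simp only [Fin.val_last, dif_pos hb]

lemma KK_pfx_succ58 {Ω C : Type*} [Fintype Ω] {n b : ℕ} (hb : b < n) (w : Ω → ℝ) (hw : ∀ ω, 0 ≤ w ω)
    (R : Ω → V n) (Y : Ω → C) :
    KK w (fun ω => pfx (b + 1) (R ω)) Y = KK w (fun ω => pfx b (R ω)) Y
      + KK w (fun ω => R ω ⟨b, hb⟩) (fun ω => (pfx b (R ω), Y ω)) := by
  rw [← KK_chain w hw, ← KK_bij w hw (fun ω => pfx (b + 1) (R ω))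
    (fun ω => (pfx b (R ω), R ω ⟨b, hb⟩)) Y (fun _ => splV58 b)
    (fun ω _ => (splV_pfx58 hb (R ω)).symm)]

/-- C5 with the constant 16 -/
theorem Dl_le16 {n : ℕ} (β : ℕ) (hβ : β + 1 < n) (μ : Un n × V n → ℝ) (hμ : ∀ x, 0 ≤ μ x) :
    Dl β μ ≤ 16 * Real.sqrt (phi β μ * (FF (β + 2) μ - FF β μ)) := by
  have hβ' : β < n := by omega
  set X : Un n × V n → ZMod 2 := fun x => x.2 ⟨β, hβ'⟩ with hX
  set X1 : Un n × V n → ZMod 2 := fun x => x.2 ⟨β + 1, hβ⟩ with hX1
  set Y : Un n × V n → V β × Un n := fun x => (pfx β x.2, x.1) with hY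
  set σ : Un n × V n → Un n × V n := rxP (β, 1) with hσ
  have hXσ : ∀ x, X (σ x) = X x + X1 x := by
    intro x
    simp only [hX, hX1, hσ]
    unfold rxP rx
    simp only [if_true, dif_pos hβ, one_mul]
  -- the gain is a difference of conditional defects of one bit
  have e1 : Dl β μ = KK μ X Y - KK μ (fun x => X (σ x)) Y := by
    unfold Dl
    rw [KK_pfx_succ58 hβ' μ hμ (fun x => x.2) (fun x => x.1),
      KK_pfx_succ58 hβ' μ hμ (fun x => rx (β, 1) x.2) (fun x => x.1)]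
    have e2 : (fun x : Un n × V n => pfx β (rx (β, 1) x.2)) = fun x => pfx β x.2 := by
      funext x
      exact pfx_rx58 β 1 x.2
    have e3 : (fun x : Un n × V n => (pfx β (rx (β, 1) x.2), x.1)) = Y := by
      funext x
      simp only [hY, pfx_rx58]
    rw [e2, e3]
    ring_nf
    rfl
  have h1 := lemC_bit58 (by simp [ZMod.card]) μ hμ σ (rxP_rxP58 _) X Y (by
    intro s s'
    simp only [hY, hσ]
    unfold rxP
    simp only [Prod.mk.injEq, pfx_rx58]
    refine and_congr_right fun _ => ⟨fun h => ?_, fun h => by rw [h]⟩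
    have := congrArg (rxU (β, 1)) h
    rwa [rxU_rxU58, rxU_rxU58] at this)
  rw [← e1, ← phi_eq58 β μ hμ] at h1
  -- sum of the two conditional defects
  have e4 : FF (β + 2) μ - FF β μ = KK μ X Y + KK μ X1 (fun x => (X x, Y x)) := by
    unfold FF
    rw [KK_pfx_succ58 hβ μ hμ (fun x => x.2) (fun x => x.1),
      KK_pfx_succ58 hβ' μ hμ (fun x => x.2) (fun x => x.1)]
    have e5 : KK μ (fun x : Un n × V n => x.2 ⟨β + 1, hβ⟩) (fun x => (pfx (β + 1) x.2, x.1))
        = KK μ X1 (fun x => (X x, Y x)) := by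
      unfold KK
      refine Finset.sum_congr rfl fun x _ => ?_
      have key : ∀ x' : Un n × V n, pfx (β + 1) x'.2 = pfx (β + 1) x.2 ↔
          (pfx β x'.2 = pfx β x.2 ∧ X x' = X x) := by
        intro x'
        rw [← (splV58 β).injective.eq_iff, splV_pfx58 hβ', splV_pfx58 hβ', Prod.mk.injEq]
      have m1 : mass μ (fun x : Un n × V n => (x.2 ⟨β + 1, hβ⟩, (pfx (β + 1) x.2, x.1)))
          (x.2 ⟨β + 1, hβ⟩, (pfx (β + 1) x.2, x.1)) =
          mass μ (fun x => (X1 x, (X x, Y x))) (X1 x, (X x, Y x)) := by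
        refine mass_congr μ _ _ _ _ fun x' _ => ?_
        simp only [Prod.mk.injEq, key, hY, hX1]
        tauto
      have m2 : mass μ (fun x : Un n × V n => (pfx (β + 1) x.2, x.1))
          (pfx (β + 1) x.2, x.1) =
          mass μ (fun x => (X x, Y x)) (X x, Y x) := by
        refine mass_congr μ _ _ _ _ fun x' _ => ?_
        simp only [Prod.mk.injEq, key, hY]
        tauto
      rw [m1, m2]
    have e10 : KK μ (fun x : Un n × V n => x.2 ⟨β, hβ'⟩) (fun x => (pfx β x.2, x.1)) = KK μ X Y := rfl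
    rw [e5, e10]
    ring
  have e6 : KK μ X1 (fun x => (X x, Y x)) ≥ 0 := KK_nonneg μ hμ _ _
  have e7 : KK μ (fun x => X (σ x)) Y ≤ FF (β + 2) μ - FF β μ := by
    rw [e4, ← KK_chain μ hμ X X1 Y]
    have e8 : (fun x => X (σ x)) = fun x => (fun z : ZMod 2 × ZMod 2 => z.1 + z.2) (X x, X1 x) := by
      funext x
      exact hXσ x
    rw [e8]
    refine KK_map μ hμ (fun x => (X x, X1 x)) Y (fun z : ZMod 2 × ZMod 2 => z.1 + z.2) ?_
    intro a
    have h2 : Nat.card {z : ZMod 2 × ZMod 2 // z.1 + z.2 = a} = 2 := by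
      rw [Nat.card_eq_fintype_card]
      revert a
      decide
    rw [h2]
    simp [ZMod.card]
  have e9 : KK μ X Y ≤ FF (β + 2) μ - FF β μ := by
    rw [e4]
    linarith
  have hph := phi_nonneg58 β μ hμ
  have hF : 0 ≤ FF (β + 2) μ - FF β μ := le_trans (KK_nonneg μ hμ X Y) e9
  have h3 : Real.sqrt (phi β μ * (KK μ X Y + KK μ (fun x => X (σ x)) Y)) ≤
      2 * Real.sqrt (phi β μ * (FF (β + 2) μ - FF β μ)) := by
    rw [show (2 : ℝ) = Real.sqrt 4 by
      rw [show (4 : ℝ) = 2 ^ 2 by norm_num, Real.sqrt_sq (by norm_num)], ← Real.sqrt_mul (by norm_num)]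
    refine Real.sqrt_le_sqrt ?_
    nlinarith [mul_le_mul_of_nonneg_left (add_le_add e9 e7) hph, mul_nonneg hph hF]
  have h4 := Real.sqrt_nonneg (phi β μ * (FF (β + 2) μ - FF β μ))
  linarith

/-- C5: gain of one bond -/
theorem Dl_le {n : ℕ} (β : ℕ) (hβ : β + 1 < n) (μ : Un n × V n → ℝ) (hμ : ∀ x, 0 ≤ μ x) :
    Dl β μ ≤ 60 * Real.sqrt (phi β μ * (FF (β + 2) μ - FF β μ)) := by
  have h := Dl_le16 β hβ μ hμ
  have h4 := Real.sqrt_nonneg (phi β μ * (FF (β + 2) μ - FF β μ))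
  linarith

/-- C6: production -/
theorem prod_step {n : ℕ} (B : ℕ) (hB : 0 < B) (hn : n ≤ B) (μ : Un n × V n → ℝ)
    (hμ : ∀ x, 0 ≤ μ x) :
    ∑ β ∈ range (n - 1), phi β μ ≤ B * (K0 μ id - K0 (stp B μ) id) := by
  have hB' : (0 : ℝ) < B := by exact_mod_cast hB
  have hcard : (Fintype.card (Lt B) : ℝ) = 2 * B := by
    simp [Lt, ZMod.card]
    ring
  have hst : ∀ x, stp B μ x = ∑ b ∈ range B, (1 / (B : ℝ)) * avg2 (rxP (b, 1)) μ x := by
    intro x
    unfold stp avg2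
    rw [hcard, Fintype.sum_prod_type, ← Fin.sum_univ_eq_sum_range
      (fun b => (1 / (B : ℝ)) * ((μ x + μ (rxP (b, 1) x)) / 2)) B, Finset.sum_div]
    refine Finset.sum_congr rfl fun b _ => ?_
    have h2 : ∑ ξ : ZMod 2, μ (rxP (b.val, ξ) x) = μ x + μ (rxP (b.val, 1) x) := by
      have : (Finset.univ : Finset (ZMod 2)) = {0, 1} := by decide
      rw [this, Finset.sum_pair (by decide), rxP_zero58]
    rw [h2]
    field_simp
  have hst0 : ∀ x, 0 ≤ stp B μ x := by
    intro x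
    unfold stp
    exact div_nonneg (Finset.sum_nonneg fun p _ => hμ _) (by positivity)
  have havg : ∀ b, ∑ x, avg2 (rxP (b, 1)) μ x = ∑ x, μ x := by
    intro b
    unfold avg2
    have hs : ∑ x, μ (rxP (b, 1) x) = ∑ x, μ x :=
      Equiv.sum_comp (⟨rxP (b, 1), rxP (b, 1), rxP_rxP58 _, rxP_rxP58 _⟩ :
        (Un n × V n) ≃ (Un n × V n)) μ
    rw [← Finset.sum_div, Finset.sum_add_distrib, hs]
    ring
  have htot : tot (stp B μ) = tot μ := by
    unfold tot
    simp only [hst]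
    rw [Finset.sum_comm]
    simp only [← Finset.mul_sum, havg]
    rw [Finset.sum_const, Finset.card_range, nsmul_eq_mul]
    field_simp
  have hent : ent (stp B μ) ≤ ∑ b ∈ range B, (1 / (B : ℝ)) * ent (avg2 (rxP (b, 1)) μ) := by
    unfold ent
    simp only [Finset.mul_sum]
    rw [Finset.sum_comm]
    refine Finset.sum_le_sum fun x _ => ?_
    have h1 := Real.convexOn_mul_log.map_sum_le (t := range B) (w := fun _ => 1 / (B : ℝ))
      (p := fun b => avg2 (rxP (b, 1)) μ x) (fun b _ => by positivity)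
      (by rw [Finset.sum_const, Finset.card_range, nsmul_eq_mul]; field_simp)
      (fun b _ => by
        show 0 ≤ avg2 (rxP (b, 1)) μ x
        unfold avg2
        linarith [hμ x, hμ (rxP (b, 1) x)])
    simp only [smul_eq_mul] at h1
    rw [hst x]
    exact h1
  have hK : K0 μ id - K0 (stp B μ) id = ent μ - ent (stp B μ) := by
    rw [K0_id58 μ hμ, K0_id58 _ hst0, htot]
    ring
  rw [hK]
  have h3 : ∑ β ∈ range (n - 1), phi β μ ≤ ∑ β ∈ range B, phi β μ :=
    Finset.sum_le_sum_of_subset_of_nonneg (Finset.range_subset_range.2 (by omega))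
      (fun β _ _ => phi_nonneg58 β μ hμ)
  have h4 : ∑ β ∈ range B, phi β μ = B * ent μ - ∑ b ∈ range B, ent (avg2 (rxP (b, 1)) μ) := by
    rw [Finset.sum_congr rfl fun β _ => phi_eq58 β μ hμ, Finset.sum_sub_distrib, Finset.sum_const,
      Finset.card_range, nsmul_eq_mul]
  have h5 : (B : ℝ) * ent (stp B μ) ≤ ∑ b ∈ range B, ent (avg2 (rxP (b, 1)) μ) := by
    rw [← Finset.mul_sum] at hent
    have h6 := mul_le_mul_of_nonneg_left hent hB'.le
    have h7 : (B : ℝ) * (1 / (B : ℝ) * ∑ b ∈ range B, ent (avg2 (rxP (b, 1)) μ)) =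
        ∑ b ∈ range B, ent (avg2 (rxP (b, 1)) μ) := by
      field_simp
    rw [h7] at h6
    exact h6
  rw [h4] at h3
  linarith

end Pool.Agent.NJ.B
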