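import Pool.Agent.CutSeq.Ent
import Pool.Agent.CutSeq.Mod2
import Pool.Agent.CutSeq.Lvl
import Pool.Agent.CutSeq.Back

/-!
S19271, target B: definitions (helper16).

`rx p`, `rxU p`, `rxP p` : a letter multiplied from the right (prepended letter);
`FF b μ` : entropy defect of the first `b` entries of the row given the array;
`Ph b μ S` : the same after `S` fresh right letters, given the old array and the letters;
`Dl`, `phi` : gain and production of one bond; `stp B μ` : one random right letter.
-/

set_option autoImplicit false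

namespace Pool.Agent.NJ.B

open Finset Pool.Agent.CutSeq

/-- right letter on a row: the entry `b` becomes entry `b` + `ξ` * entry `b + 1` (entry `n` is `1`) -/
def rx {n : ℕ} (p : ℕ × ZMod 2) (R : V n) : V n := fun j =>
  if j.val = p.1 then R j + p.2 * (if h : j.val + 1 < n then R ⟨j.val + 1, h⟩ else 1) else R j

/-- right letter on an array -/
def rxU {n : ℕ} (p : ℕ × ZMod 2) (A : Un n) : Un n := fun k => rx p (A k)

/-- right letter on a pair (array, next row) -/
def rxP {n : ℕ} (p : ℕ × ZMod 2) (x : Un n × V n) : Un n × V n := (rxU p x.1, rx p x.2)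

/-- the first `S` letters of `α`, one after another from the right -/
def rxs {n : ℕ} (α : Seq) : ℕ → V n → V n
  | 0, R => R
  | S + 1, R => rx (α S) (rxs α S R)

/-- the same for arrays -/
def rxUs {n : ℕ} (α : Seq) : ℕ → Un n → Un n
  | 0, A => A
  | S + 1, A => rxU (α S) (rxUs α S A)

/-- letters -/
abbrev Lt (B : ℕ) := Fin B × ZMod 2

/-- one random right letter -/
noncomputable def stp (B : ℕ) {n : ℕ} (μ : Un n × V n → ℝ) : Un n × V n → ℝ := fun x =>
  (∑ p : Lt B, μ (rxP (p.1.val, p.2) x)) / (Fintype.card (Lt B) : ℝ)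

/-- first `b` entries -/
def pfx {n : ℕ} (b : ℕ) (R : V n) : V b := fun j => if h : j.val < n then R ⟨j.val, h⟩ else 0

/-- entropy defect of the first `b` entries of the row given the array -/
noncomputable def FF {n : ℕ} (b : ℕ) (μ : Un n × V n → ℝ) : ℝ :=
  KK μ (fun x => pfx b x.2) (fun x => x.1)

/-- entropy defect of the first `b` entries after `S` right letters, given array and letters -/
noncomputable def Ph {n : ℕ} (B b : ℕ) (μ : Un n × V n → ℝ) (S : ℕ) : ℝ :=
  KK (fun q : (Un n × V n) × Wd B S => μ q.1 * uw B S q.2)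
    (fun q => pfx b (rxs (ext q.2) S q.1.2)) (fun q => (q.1.1, q.2))

/-- gain at the bond `β` -/
noncomputable def Dl {n : ℕ} (β : ℕ) (μ : Un n × V n → ℝ) : ℝ :=
  KK μ (fun x => pfx (β + 1) x.2) (fun x => x.1)
    - KK μ (fun x => pfx (β + 1) (rx (β, 1) x.2)) (fun x => x.1)

/-- production at the bond `β` -/
noncomputable def phi {n : ℕ} (β : ℕ) (μ : Un n × V n → ℝ) : ℝ :=
  K0 μ id - K0 (fun x => (μ x + μ (rxP (β, 1) x)) / 2) id

/-- law of (array, next row) after `l` letters -/
noncomputable def lwp (B l n : ℕ) (x : Un n × V n) : ℝ :=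
  mass (uw B l) (fun ω => (mm (ext ω) l n, row (ext ω) l n)) x

/-- character sum of a weight on vectors -/
noncomputable def chr {n : ℕ} (ρ : V n → ℝ) (z : V n) : ℝ :=
  ∑ R, ρ R * (if R ⬝ᵥ z = 0 then 1 else -1)

/-- logarithmic weight of the characters with top at most `y` -/
noncomputable def kap {n : ℕ} (ρ : V n → ℝ) (y : ℕ) : ℝ :=
  Real.log (∑ z : V n, if tp z ≤ y then chr ρ z ^ 2 else 0)

/-- probability that the slab brings `z` below `b` (or lets the entries from `b` on vanish) -/
noncomputable def qb (B S n b : ℕ) (z : V n) : ℝ :=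
  pr (uw B S) {ω | tp (act (mm (ext ω) S n) z) ≤ b}

/-- first `y` entries as a linear map -/
def pfxL (n y : ℕ) : V n →ₗ[ZMod 2] V y where
  toFun := pfx y
  map_add' := by
    intro R R'
    funext j
    unfold pfx
    by_cases h : j.val < n
    · simp [h]
    · simp [h]
  map_smul' := by
    intro c R
    funext j
    unfold pfx
    by_cases h : j.val < n
    · simp [h]
    · simp [h]

/-- dimension of `TT` on the first `y` columns -/
noncomputable def dT (α : Seq) (l n y : ℕ) : ℕ :=
  Module.finrank (ZMod 2) (Submodule.map (pfxL n y) (TT α l n))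

end Pool.Agent.NJ.B
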