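import Pool.Agent.NJ.B.Defs16
import Pool.Agent.NJ.Phi63

/-!
S19271, target B, rows M5 and F: right letters are involutions, the prefix entropies after fresh right
letters, and the drop in one step (helper63).
-/

set_option autoImplicit false

namespace Pool.Agent.NJ.B.F63

open Finset Pool.Agent.CutSeq

/-! ### M5 -/

theorem rx_rx {n : ℕ} (p : ℕ × ZMod 2) (R : V n) : rx p (rx p R) = R := by
  funext j
  by_cases h : j.val = p.1
  · have h1 : (if h : j.val + 1 < n then rx p R ⟨j.val + 1, h⟩ else 1)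
        = (if h : j.val + 1 < n then R ⟨j.val + 1, h⟩ else 1) := by
      by_cases h2 : j.val + 1 < n
      · rw [dif_pos h2, dif_pos h2]
        show (if j.val + 1 = p.1 then _ else R ⟨j.val + 1, h2⟩) = _
        rw [if_neg (by omega)]
      · rw [dif_neg h2, dif_neg h2]
    show (if j.val = p.1 then rx p R j + p.2 * (if h : j.val + 1 < n then rx p R ⟨j.val + 1, h⟩ else 1)
      else rx p R j) = R j
    rw [if_pos h, h1]
    show (if j.val = p.1 then R j + p.2 * (if h : j.val + 1 < n then R ⟨j.val + 1, h⟩ else 1)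
      else R j) + p.2 * (if h : j.val + 1 < n then R ⟨j.val + 1, h⟩ else 1) = R j
    rw [if_pos h, add_assoc, CharTwo.add_self_eq_zero, add_zero]
  · show (if j.val = p.1 then _ else rx p R j) = R j
    rw [if_neg h]
    show (if j.val = p.1 then _ else R j) = R j
    rw [if_neg h]

theorem rxU_rxU {n : ℕ} (p : ℕ × ZMod 2) (A : Un n) : rxU p (rxU p A) = A :=
  funext fun k => rx_rx p (A k)

theorem rxP_rxP {n : ℕ} (p : ℕ × ZMod 2) (x : Un n × V n) : rxP p (rxP p x) = x :=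
  Prod.ext (rxU_rxU p x.1) (rx_rx p x.2)

/-- a right letter as an equivalence -/
def rxE {n : ℕ} (p : ℕ × ZMod 2) : V n ≃ V n := ⟨rx p, rx p, rx_rx p, rx_rx p⟩

/-- a right letter on pairs as an equivalence -/
def rxPE {n : ℕ} (p : ℕ × ZMod 2) : Un n × V n ≃ Un n × V n := ⟨rxP p, rxP p, rxP_rxP p, rxP_rxP p⟩

/-- several right letters as an equivalence -/
def rxsE {n : ℕ} (α : Seq) : ℕ → (V n ≃ V n)
  | 0 => Equiv.refl _
  | S + 1 => (rxsE α S).trans (rxE (α S))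

theorem rxsE_apply {n : ℕ} (α : Seq) (S : ℕ) (R : V n) : rxsE α S R = rxs α S R := by
  induction S with
  | zero => rfl
  | succ S ih =>
    show rx (α S) (rxsE α S R) = rx (α S) (rxs α S R)
    rw [ih]

theorem stp_nonneg {n : ℕ} (B : ℕ) (μ : Un n × V n → ℝ) (hμ : ∀ x, 0 ≤ μ x) (x : Un n × V n) :
    0 ≤ stp B μ x :=
  div_nonneg (sum_nonneg fun _ _ => hμ _) (Nat.cast_nonneg _)

theorem stp_it_nonneg {n : ℕ} (B : ℕ) (μ : Un n × V n → ℝ) (hμ : ∀ x, 0 ≤ μ x) (S : ℕ) :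
    ∀ x, 0 ≤ (stp B)^[S] μ x := by
  induction S with
  | zero => exact hμ
  | succ S ih =>
    rw [Function.iterate_succ_apply']
    exact stp_nonneg B _ ih

theorem card_Lt_pos {B : ℕ} (hB : 0 < B) : (0 : ℝ) < (Fintype.card (Lt B) : ℝ) := by
  have : Nonempty (Lt B) := ⟨(⟨0, hB⟩, 0)⟩
  exact_mod_cast Fintype.card_pos

theorem card_Lt (B : ℕ) : (Fintype.card (Lt B) : ℝ) = 2 * (B : ℝ) := by
  have : Fintype.card (Lt B) = B * 2 := by
    rw [Fintype.card_prod, Fintype.card_fin, ZMod.card]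
  rw [this]
  push_cast
  ring

theorem stp_tot {n : ℕ} (B : ℕ) (hB : 0 < B) (μ : Un n × V n → ℝ) : tot (stp B μ) = tot μ := by
  have h0 := card_Lt_pos hB
  unfold tot stp
  rw [← sum_div, sum_comm]
  have h1 : ∀ p : Lt B, ∑ x, μ (rxP (p.1.val, p.2) x) = ∑ x, μ x := fun p =>
    Equiv.sum_comp (rxPE (p.1.val, p.2)) μ
  rw [sum_congr rfl fun p _ => h1 p, sum_const, card_univ, nsmul_eq_mul]
  field_simp

/-! ### F1 -/

theorem pfx_eq {n : ℕ} (b : ℕ) (R : V n) : pfx b R = CutSeq.NJ.P63.pfx b R := rfl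

theorem rx_eq {n : ℕ} (p : ℕ × ZMod 2) (R : V n) : rx p R = CutSeq.NJ.P63.rxR p.1 p.2 R := by
  funext j
  show (if j.val = p.1 then R j + p.2 * (if h : j.val + 1 < n then R ⟨j.val + 1, h⟩ else 1) else R j)
    = R j + if j.val = p.1 then p.2 * CutSeq.NJ.P63.up R (p.1 + 1) else 0
  by_cases h : j.val = p.1
  · rw [if_pos h, if_pos h]
    congr 2
    unfold CutSeq.NJ.P63.up
    have hj := j.isLt
    by_cases h1 : p.1 + 1 < n
    · rw [dif_pos (by omega), dif_pos h1]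
      congr 1
      exact Fin.ext (by show j.val + 1 = p.1 + 1; omega)
    · rw [dif_neg (by omega), dif_neg h1, if_pos (by omega)]
  · rw [if_neg h, if_neg h, add_zero]

theorem KK_pfx_mono {n : ℕ} {Ω B' : Type*} [Fintype Ω] (w : Ω → ℝ) (hw : ∀ ω, 0 ≤ w ω) (R : Ω → V n)
    (Y : Ω → B') {b c : ℕ} (h : b ≤ c) (hc : c ≤ n) :
    KK w (fun ω => pfx b (R ω)) Y ≤ KK w (fun ω => pfx c (R ω)) Y := by
  induction c with
  | zero =>
    have : b = 0 := by omega
    subst this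
    exact le_rfl
  | succ c ih =>
    rcases Nat.eq_or_lt_of_le h with h1 | h1
    · rw [h1]
    · refine (ih (by omega) (by omega)).trans ?_
      have h2 := CutSeq.NJ.P63.KK_pfx_succ w hw R Y c (by omega)
      have h3 := KK_nonneg w hw (fun ω => R ω ⟨c, by omega⟩) (fun ω => (CutSeq.NJ.P63.pfx c (R ω), Y ω))
      simp only [pfx_eq]
      linarith

theorem KK_pfx_lip {n : ℕ} {Ω B' : Type*} [Fintype Ω] (w : Ω → ℝ) (hw : ∀ ω, 0 ≤ w ω) (R : Ω → V n)
    (Y : Ω → B') {b c : ℕ} (h : b ≤ c) (hc : c ≤ n) :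
    KK w (fun ω => pfx c (R ω)) Y ≤ KK w (fun ω => pfx b (R ω)) Y
      + (c - b : ℝ) * Real.log 2 * tot w := by
  induction c with
  | zero =>
    have : b = 0 := by omega
    subst this
    simp
  | succ c ih =>
    rcases Nat.eq_or_lt_of_le h with h1 | h1
    · rw [h1]
      simp
    · have h2 := CutSeq.NJ.P63.KK_pfx_succ w hw R Y c (by omega)
      have h3 := KK_le w hw (fun ω => R ω ⟨c, by omega⟩) (fun ω => (CutSeq.NJ.P63.pfx c (R ω), Y ω))
      have h4 := ih (by omega) (by omega)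
      have h5 : (Fintype.card (ZMod 2) : ℝ) = 2 := by
        rw [ZMod.card]
        norm_num
      rw [h5] at h3
      simp only [pfx_eq] at h4 ⊢
      push_cast
      nlinarith [h2, h3, h4]

/-- F1 -/
theorem FF_zero {n : ℕ} (μ : Un n × V n → ℝ) : FF 0 μ = 0 := by
  unfold FF KK
  refine sum_eq_zero fun x _ => ?_
  have h1 : Fintype.card (V 0) = 1 := by simp [V]
  have h2 : mass μ (fun x => (pfx 0 x.2, x.1)) (pfx 0 x.2, x.1) = mass μ (fun x => x.1) x.1 := by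
    unfold mass
    refine sum_congr rfl fun y _ => ?_
    have : (pfx 0 y.2, y.1) = ((pfx 0 x.2, x.1) : V 0 × Un n) ↔ y.1 = x.1 :=
      ⟨fun h => (Prod.mk.inj h).2, fun h => Prod.ext (funext fun j => j.elim0) h⟩
    by_cases h : y.1 = x.1
    · rw [if_pos (this.2 h), if_pos h]
    · rw [if_neg (fun hh => h (this.1 hh)), if_neg h]
  rw [h1, h2, Nat.cast_one, one_mul]
  by_cases h3 : mass μ (fun x => x.1) x.1 = 0
  · rw [h3]
    simp
  · rw [div_self h3, Real.log_one, mul_zero]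

theorem FF_mono {n : ℕ} (μ : Un n × V n → ℝ) (hμ : ∀ x, 0 ≤ μ x) {b c : ℕ} (h : b ≤ c) (hc : c ≤ n) :
    FF b μ ≤ FF c μ := KK_pfx_mono μ hμ (fun x => x.2) (fun x => x.1) h hc

theorem FF_lip {n : ℕ} (μ : Un n × V n → ℝ) (hμ : ∀ x, 0 ≤ μ x) {b c : ℕ} (h : b ≤ c) (hc : c ≤ n) :
    FF c μ ≤ FF b μ + (c - b : ℝ) * Real.log 2 * tot μ :=
  KK_pfx_lip μ hμ (fun x => x.2) (fun x => x.1) h hc

/-! ### F2 -/

/-- the weight of a pair and a fresh word -/
noncomputable def wS {n : ℕ} (B S : ℕ) (μ : Un n × V n → ℝ) : (Un n × V n) × Wd B S → ℝ :=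
  fun q => μ q.1 * uw B S q.2

theorem uw_nn (B S : ℕ) (ω : Wd B S) : 0 ≤ uw B S ω := by
  unfold uw
  positivity

theorem uw_sum {B : ℕ} (hB : 0 < B) (S : ℕ) : ∑ ω, uw B S ω = 1 := by
  have : Nonempty (Wd B S) := ⟨fun _ => (⟨0, hB⟩, 0)⟩
  have h : (0 : ℝ) < Fintype.card (Wd B S) := by exact_mod_cast Fintype.card_pos
  unfold uw
  rw [sum_const, card_univ, nsmul_eq_mul]
  field_simp

theorem wS_nonneg {n : ℕ} (B S : ℕ) (μ : Un n × V n → ℝ) (hμ : ∀ x, 0 ≤ μ x)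
    (q : (Un n × V n) × Wd B S) : 0 ≤ wS B S μ q :=
  mul_nonneg (hμ _) (uw_nn B S _)

/-- `Ph` is a mean over the fresh word -/
theorem Ph_eq {n : ℕ} (B b : ℕ) (μ : Un n × V n → ℝ) (S : ℕ) :
    Ph B b μ S = ∑ ω, uw B S ω * KK μ (fun x => pfx b (rxs (ext ω) S x.2)) (fun x => x.1) :=
  CutSeq.NJ.P63.KK_letter μ (uw B S) (fun x ω => pfx b (rxs (ext ω) S x.2)) (fun x => x.1)

theorem Ph_zero {n : ℕ} (B b : ℕ) (μ : Un n × V n → ℝ) :
    Ph B b μ 0 = FF b μ := by
  have h1 : Fintype.card (Wd B 0) = 1 := by simp [Wd]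
  rw [Ph_eq]
  have h2 : ∀ ω : Wd B 0, uw B 0 ω * KK μ (fun x => pfx b (rxs (ext ω) 0 x.2)) (fun x => x.1)
      = 1 * FF b μ := by
    intro ω
    unfold uw
    rw [h1]
    show (1 / ((1 : ℕ) : ℝ)) * FF b μ = 1 * FF b μ
    norm_num
  rw [sum_congr rfl fun ω _ => h2 ω, sum_const, card_univ, h1, one_smul, one_mul]

theorem Ph_top {n : ℕ} (B S : ℕ) (hB : 0 < B) (μ : Un n × V n → ℝ) (hμ : ∀ x, 0 ≤ μ x) :
    Ph B n μ S = FF n μ := by
  rw [Ph_eq]
  have h2 : ∀ ω : Wd B S, uw B S ω * KK μ (fun x => pfx n (rxs (ext ω) S x.2)) (fun x => x.1)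
      = uw B S ω * FF n μ := by
    intro ω
    congr 1
    refine KK_bij μ hμ (fun x => pfx n x.2) _ (fun x => x.1) (fun _ => rxsE (ext ω) S) (fun x _ => ?_)
    show pfx n (rxs (ext ω) S x.2) = rxsE (ext ω) S (pfx n x.2)
    rw [rxsE_apply, pfx_eq, pfx_eq, CutSeq.NJ.P63.pfx_self, CutSeq.NJ.P63.pfx_self]
  rw [sum_congr rfl fun ω _ => h2 ω, ← sum_mul, uw_sum hB, one_mul]

theorem Ph_mono {n : ℕ} (B S : ℕ) (μ : Un n × V n → ℝ) (hμ : ∀ x, 0 ≤ μ x) {b c : ℕ} (h : b ≤ c)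
    (hc : c ≤ n) : Ph B b μ S ≤ Ph B c μ S := by
  rw [Ph_eq, Ph_eq]
  exact sum_le_sum fun ω _ => mul_le_mul_of_nonneg_left
    (KK_pfx_mono μ hμ (fun x => rxs (ext ω) S x.2) (fun x => x.1) h hc) (uw_nn B S ω)

/-! ### the law after fresh right letters -/

theorem rxs_congr {n : ℕ} (α β : Seq) (S : ℕ) (h : ∀ i < S, α i = β i) (R : V n) :
    rxs α S R = rxs β S R := by
  induction S with
  | zero => rfl
  | succ S ih =>
    show rx (α S) (rxs α S R) = rx (β S) (rxs β S R)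
    rw [ih fun i hi => h i (by omega), h S (by omega)]

theorem rxUs_congr {n : ℕ} (α β : Seq) (S : ℕ) (h : ∀ i < S, α i = β i) (A : Un n) :
    rxUs α S A = rxUs β S A := by
  induction S with
  | zero => rfl
  | succ S ih =>
    show rxU (α S) (rxUs α S A) = rxU (β S) (rxUs β S A)
    rw [ih fun i hi => h i (by omega), h S (by omega)]

/-- the pair after the word -/
def run {n : ℕ} {B S : ℕ} (q : (Un n × V n) × Wd B S) : Un n × V n :=
  (rxUs (ext q.2) S q.1.1, rxs (ext q.2) S q.1.2)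

theorem ext_snoc_lt {B S : ℕ} (ω : Wd B S) (p : Lt B) (i : ℕ) (hi : i < S) :
    ext (Fin.snoc (α := fun _ => Lt B) ω p : Wd B (S + 1)) i = ext ω i := by
  unfold CutSeq.ext
  rw [dif_pos (by omega), dif_pos hi]
  have : (⟨i, by omega⟩ : Fin (S + 1)) = Fin.castSucc ⟨i, hi⟩ := rfl
  rw [this, Fin.snoc_castSucc]

theorem ext_snoc_last {B S : ℕ} (ω : Wd B S) (p : Lt B) :
    ext (Fin.snoc (α := fun _ => Lt B) ω p : Wd B (S + 1)) S = (p.1.val, p.2) := by
  unfold CutSeq.ext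
  rw [dif_pos (by omega)]
  have : (⟨S, by omega⟩ : Fin (S + 1)) = Fin.last S := rfl
  rw [this, Fin.snoc_last]

theorem rxs_snoc {n B S : ℕ} (ω : Wd B S) (p : Lt B) (R : V n) :
    rxs (ext (Fin.snoc (α := fun _ => Lt B) ω p : Wd B (S + 1))) (S + 1) R
      = rx (p.1.val, p.2) (rxs (ext ω) S R) := by
  show rx (ext (Fin.snoc (α := fun _ => Lt B) ω p : Wd B (S + 1)) S)
    (rxs (ext (Fin.snoc (α := fun _ => Lt B) ω p : Wd B (S + 1))) S R) = _
  rw [ext_snoc_last, rxs_congr _ (ext ω) S (fun i hi => ext_snoc_lt ω p i hi)]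

theorem rxUs_snoc {n B S : ℕ} (ω : Wd B S) (p : Lt B) (A : Un n) :
    rxUs (ext (Fin.snoc (α := fun _ => Lt B) ω p : Wd B (S + 1))) (S + 1) A
      = rxU (p.1.val, p.2) (rxUs (ext ω) S A) := by
  show rxU (ext (Fin.snoc (α := fun _ => Lt B) ω p : Wd B (S + 1)) S)
    (rxUs (ext (Fin.snoc (α := fun _ => Lt B) ω p : Wd B (S + 1))) S A) = _
  rw [ext_snoc_last, rxUs_congr _ (ext ω) S (fun i hi => ext_snoc_lt ω p i hi)]

/-- words of length `S + 1`: a word of length `S` and the newest letter -/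
theorem sum_snoc {B S : ℕ} (f : Wd B (S + 1) → ℝ) :
    ∑ ω, f ω = ∑ ω : Wd B S, ∑ p : Lt B, f (Fin.snoc (α := fun _ => Lt B) ω p) := by
  rw [← Equiv.sum_comp (Fin.snocEquiv (fun _ : Fin (S + 1) => Lt B)) f, Fintype.sum_prod_type, sum_comm]
  rfl

theorem uw_snoc {B S : ℕ} (ω : Wd B S) (p : Lt B) :
    uw B (S + 1) (Fin.snoc (α := fun _ => Lt B) ω p) = uw B S ω / (Fintype.card (Lt B) : ℝ) := by
  have h1 : ∀ k, Fintype.card (Wd B k) = Fintype.card (Lt B) ^ k := by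
    intro k
    show Fintype.card (Fin k → Lt B) = _
    rw [Fintype.card_fun, Fintype.card_fin]
  unfold uw
  rw [h1, h1, pow_succ]
  push_cast
  rw [div_div]

theorem run_snoc {n B S : ℕ} (y : Un n × V n) (ω : Wd B S) (p : Lt B) :
    run (y, (Fin.snoc (α := fun _ => Lt B) ω p : Wd B (S + 1))) = rxP (p.1.val, p.2) (run (y, ω)) :=
  Prod.ext (rxUs_snoc ω p y.1) (rxs_snoc ω p y.2)

theorem mass_wS {n : ℕ} (B S : ℕ) (μ : Un n × V n → ℝ) (x : Un n × V n) :
    mass (wS B S μ) run x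
      = ∑ y, ∑ ω : Wd B S, (Set.indicator {q : (Un n × V n) × Wd B S | run q = x} (wS B S μ)) (y, ω) := by
  classical
  unfold mass
  rw [Fintype.sum_prod_type]
  refine sum_congr rfl fun y _ => sum_congr rfl fun ω _ => ?_
  by_cases h : run (y, ω) = x
  · rw [if_pos h, Set.indicator_of_mem (show (y, ω) ∈ {q | run q = x} from h)]
  · rw [if_neg h, Set.indicator_of_notMem (show (y, ω) ∉ {q | run q = x} from h)]

theorem law_run {n : ℕ} (B : ℕ) (μ : Un n × V n → ℝ) (S : ℕ) (x : Un n × V n) :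
    mass (wS B S μ) run x = (stp B)^[S] μ x := by
  classical
  induction S generalizing x with
  | zero =>
    have h1 : Fintype.card (Wd B 0) = 1 := by simp [Wd]
    have h2 : ∀ ω : Wd B 0, uw B 0 ω = 1 := by
      intro ω
      unfold uw
      rw [h1]
      norm_num
    rw [mass_wS]
    have h3 : ∀ y : Un n × V n, ∑ ω : Wd B 0,
        (Set.indicator {q : (Un n × V n) × Wd B 0 | run q = x} (wS B 0 μ)) (y, ω)
        = if y = x then μ y else 0 := by
      intro y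
      have h4 : ∀ ω : Wd B 0,
          (Set.indicator {q : (Un n × V n) × Wd B 0 | run q = x} (wS B 0 μ)) (y, ω)
          = if y = x then μ y else 0 := by
        intro ω
        by_cases h : y = x
        · rw [Set.indicator_of_mem (show (y, ω) ∈ {q | run q = x} from h), if_pos h]
          show μ y * uw B 0 ω = μ y
          rw [h2, mul_one]
        · rw [Set.indicator_of_notMem (show (y, ω) ∉ {q | run q = x} from h), if_neg h]
      rw [sum_congr rfl fun ω _ => h4 ω, sum_const, card_univ, h1, one_smul]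
    rw [sum_congr rfl fun y _ => h3 y, sum_ite_eq' univ x μ, if_pos (mem_univ _)]
    rfl
  | succ S ih =>
    rw [Function.iterate_succ_apply']
    have hr : stp B ((stp B)^[S] μ) x
        = (∑ p : Lt B, mass (wS B S μ) run (rxP (p.1.val, p.2) x)) / (Fintype.card (Lt B) : ℝ) := by
      unfold stp
      refine congrArg (· / (Fintype.card (Lt B) : ℝ)) (sum_congr rfl fun p _ => ?_)
      exact (ih _).symm
    have h5 : ∑ p : Lt B, mass (wS B S μ) run (rxP (p.1.val, p.2) x)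
        = ∑ p : Lt B, ∑ y, ∑ ω : Wd B S, (Set.indicator
          {q : (Un n × V n) × Wd B S | run q = rxP (p.1.val, p.2) x} (wS B S μ)) (y, ω) :=
      sum_congr rfl fun p _ => mass_wS B S μ (rxP (p.1.val, p.2) x)
    rw [hr, h5, mass_wS, sum_comm (s := (univ : Finset (Lt B))), sum_div]
    refine sum_congr rfl fun y _ => ?_
    rw [sum_snoc, sum_comm (s := (univ : Finset (Lt B))), sum_div]
    refine sum_congr rfl fun ω _ => ?_
    rw [sum_div]
    refine sum_congr rfl fun p _ => ?_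
    by_cases h : run (y, ω) = rxP (p.1.val, p.2) x
    · have h' : run (y, (Fin.snoc (α := fun _ => Lt B) ω p : Wd B (S + 1))) = x := by
        rw [run_snoc, h, rxP_rxP]
      rw [Set.indicator_of_mem (show (y, ω) ∈ {q | run q = rxP (p.1.val, p.2) x} from h),
        Set.indicator_of_mem (show (y, (Fin.snoc (α := fun _ => Lt B) ω p : Wd B (S + 1)))
          ∈ {q | run q = x} from h')]
      show μ y * uw B (S + 1) _ = μ y * uw B S ω / _
      rw [uw_snoc, mul_div_assoc]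
    · have h' : ¬ run (y, (Fin.snoc (α := fun _ => Lt B) ω p : Wd B (S + 1))) = x := by
        intro h''
        rw [run_snoc] at h''
        exact h (by rw [← h'', rxP_rxP])
      rw [Set.indicator_of_notMem (show (y, ω) ∉ {q | run q = rxP (p.1.val, p.2) x} from h),
        Set.indicator_of_notMem (show (y, (Fin.snoc (α := fun _ => Lt B) ω p : Wd B (S + 1)))
          ∉ {q | run q = x} from h'), zero_div]

open Classical in
theorem mass_push {Ω C D : Type*} [Fintype Ω] [Fintype C] (w : Ω → ℝ) (Z : Ω → C) (h : C → D) (d : D) :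
    mass (mass w Z) h d = mass w (fun ω => h (Z ω)) d := by
  unfold mass
  have h2 : ∀ x : C, (if h x = d then (∑ q, if Z q = x then w q else 0) else 0)
      = ∑ q, if Z q = x then (if h (Z q) = d then w q else 0) else 0 := by
    intro x
    by_cases hx : h x = d
    · rw [if_pos hx]
      refine sum_congr rfl fun q _ => ?_
      by_cases h3 : Z q = x
      · rw [if_pos h3, if_pos h3, h3, if_pos hx]
      · rw [if_neg h3, if_neg h3]
    · rw [if_neg hx]
      symm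
      refine sum_eq_zero fun q _ => ?_
      by_cases h3 : Z q = x
      · rw [if_pos h3, h3, if_neg hx]
      · rw [if_neg h3]
  rw [sum_congr rfl fun x _ => h2 x, sum_comm]
  refine sum_congr rfl fun q _ => ?_
  rw [sum_ite_eq univ (Z q), if_pos (mem_univ _)]

/-- entropies of functions of the pair after the word -/
theorem KK_run {n : ℕ} {A' B' : Type*} [Fintype A'] (B : ℕ) (μ : Un n × V n → ℝ) (S : ℕ)
    (f : Un n × V n → A') (g : Un n × V n → B') :
    KK (wS B S μ) (fun q => f (run q)) (fun q => g (run q)) = KK ((stp B)^[S] μ) f g := by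
  refine KK_law _ _ _ _ _ _ fun a b => ?_
  have h1 : (stp B)^[S] μ = mass (wS B S μ) run := funext fun x => (law_run B μ S x).symm
  rw [h1, mass_push]

/-! ### F4 -/

theorem run_fst {n : ℕ} {B S : ℕ} (q q' : (Un n × V n) × Wd B S) (h : (q.1.1, q.2) = (q'.1.1, q'.2)) :
    (run q).1 = (run q').1 := by
  have h1 := Prod.mk.inj h
  show rxUs (CutSeq.ext q.2) S q.1.1 = rxUs (CutSeq.ext q'.2) S q'.1.1
  rw [h1.1, h1.2]

theorem FF_run {n : ℕ} (B S b : ℕ) (μ : Un n × V n → ℝ) :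
    KK (wS B S μ) (fun q => pfx b (run q).2) (fun q => (run q).1) = FF b ((stp B)^[S] μ) :=
  KK_run B μ S (fun x => pfx b x.2) (fun x => x.1)

/-- data processing -/
theorem FF_le_Ph {n : ℕ} (B S b : ℕ) (μ : Un n × V n → ℝ) (hμ : ∀ x, 0 ≤ μ x) :
    FF b ((stp B)^[S] μ) ≤ Ph B b μ S := by
  rw [← FF_run]
  exact KK_finer (wS B S μ) (wS_nonneg B S μ hμ) (fun q => pfx b (run q).2) (fun q => (run q).1)
    (fun q => (q.1.1, q.2)) (fun q q' _ _ h => run_fst q q' h)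

theorem FF_time {n : ℕ} (B S : ℕ) (hB : 0 < B) (μ : Un n × V n → ℝ) (hμ : ∀ x, 0 ≤ μ x) :
    FF n ((stp B)^[S] μ) ≤ FF n μ := by
  rw [← Ph_top B S hB μ hμ]
  exact FF_le_Ph B S n μ hμ

/-! ### F3 -/

/-- the letters which count -/
theorem sum_letters {n B : ℕ} (hn : n ≤ B) (g : ℕ → ℝ) :
    ∑ b ∈ range (n + 1), ∑ p : Lt B, (if b = p.1.val + 1 ∧ b < n ∧ p.2 = 1 then g p.1.val else 0)
      = ∑ β ∈ range (n - 1), g β := by
  rw [sum_comm]
  have h1 : ∀ p : Lt B, ∑ b ∈ range (n + 1),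
      (if b = p.1.val + 1 ∧ b < n ∧ p.2 = 1 then g p.1.val else 0)
      = if p.2 = 1 then (if p.1.val + 1 < n then g p.1.val else 0) else 0 := by
    intro p
    by_cases h2 : p.2 = 1
    · rw [if_pos h2]
      by_cases h3 : p.1.val + 1 < n
      · rw [if_pos h3, sum_eq_single (p.1.val + 1)]
        · rw [if_pos ⟨rfl, h3, h2⟩]
        · intro b _ hb
          exact if_neg fun h => hb h.1
        · intro h
          exact absurd (mem_range.2 (by omega)) h
      · rw [if_neg h3]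
        refine sum_eq_zero fun b _ => if_neg fun h => h3 ?_
        omega
    · rw [if_neg h2]
      exact sum_eq_zero fun b _ => if_neg fun h => h2 h.2.2
  rw [sum_congr rfl fun p _ => h1 p, Fintype.sum_prod_type]
  have h2 : ∀ β : Fin B, ∑ ξ : ZMod 2, (if (β, ξ).2 = 1 then
      (if (β, ξ).1.val + 1 < n then g (β, ξ).1.val else 0) else 0)
      = if β.val + 1 < n then g β.val else 0 := by
    intro β
    exact (sum_ite_eq' univ (1 : ZMod 2) (fun _ => if β.val + 1 < n then g β.val else 0)).trans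
      (if_pos (mem_univ _))
  rw [sum_congr rfl fun β _ => h2 β,
    Fin.sum_univ_eq_sum_range (fun β => if β + 1 < n then g β else 0) B, ← sum_filter]
  congr 1
  ext β
  rw [mem_filter, mem_range, mem_range]
  omega

theorem drop_eq {n : ℕ} (B S : ℕ) (hB : 0 < B) (hn : n ≤ B) (μ : Un n × V n → ℝ)
    (hμ : ∀ x, 0 ≤ μ x) :
    ∑ b ∈ range (n + 1), (Ph B b μ S - Ph B b μ (S + 1))
      = 1 / (2 * (B : ℝ)) * ∑ β ∈ range (n - 1),
        (KK (wS B S μ) (fun q => pfx (β + 1) (run q).2) (fun q => (q.1.1, q.2))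
          - KK (wS B S μ) (fun q => CutSeq.NJ.P63.Xs β (run q).2) (fun q => (q.1.1, q.2))) := by
  have hc := card_Lt_pos hB
  set K1 : Wd B S → ℕ → ℝ := fun ω b => KK μ (fun x => pfx b (rxs (CutSeq.ext ω) S x.2)) (fun x => x.1)
    with hK1
  set K2 : Wd B S → ℕ → ℝ := fun ω β =>
    KK μ (fun x => CutSeq.NJ.P63.Xs β (rxs (CutSeq.ext ω) S x.2)) (fun x => x.1) with hK2
  have e1 : ∀ β, KK (wS B S μ) (fun q => pfx (β + 1) (run q).2) (fun q => (q.1.1, q.2))
      = ∑ ω, uw B S ω * K1 ω (β + 1) := fun β => Ph_eq B (β + 1) μ S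
  have e2 : ∀ β, KK (wS B S μ) (fun q => CutSeq.NJ.P63.Xs β (run q).2) (fun q => (q.1.1, q.2))
      = ∑ ω, uw B S ω * K2 ω β := fun β =>
    CutSeq.NJ.P63.KK_letter μ (uw B S) (fun x ω => CutSeq.NJ.P63.Xs β (rxs (CutSeq.ext ω) S x.2))
      (fun x => x.1)
  have e3 : ∀ b ∈ range (n + 1), Ph B b μ S - Ph B b μ (S + 1)
      = ∑ ω, uw B S ω / (Fintype.card (Lt B) : ℝ) *
        ∑ p : Lt B, (if b = p.1.val + 1 ∧ b < n ∧ p.2 = 1 then K1 ω (p.1.val + 1) - K2 ω p.1.val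
          else 0) := by
    intro b hb
    have hb' : b ≤ n := by
      have := mem_range.1 hb
      omega
    rw [Ph_eq, Ph_eq, sum_snoc, ← sum_sub_distrib]
    refine sum_congr rfl fun ω _ => ?_
    have e4 : ∀ p : Lt B, uw B (S + 1) (Fin.snoc (α := fun _ => Lt B) ω p) *
        KK μ (fun x => pfx b (rxs (CutSeq.ext (Fin.snoc (α := fun _ => Lt B) ω p : Wd B (S + 1)))
          (S + 1) x.2)) (fun x => x.1)
        = uw B S ω / (Fintype.card (Lt B) : ℝ) * K1 ω b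
          - uw B S ω / (Fintype.card (Lt B) : ℝ) *
          (if b = p.1.val + 1 ∧ b < n ∧ p.2 = 1 then K1 ω (p.1.val + 1) - K2 ω p.1.val else 0) := by
      intro p
      have e5 : KK μ (fun x => pfx b (rxs (CutSeq.ext (Fin.snoc (α := fun _ => Lt B) ω p : Wd B (S + 1)))
          (S + 1) x.2)) (fun x => x.1)
          = KK μ (fun x => CutSeq.NJ.P63.pfx b (CutSeq.NJ.P63.rxR p.1.val p.2
            (rxs (CutSeq.ext ω) S x.2))) (fun x => x.1) := by
        simp only [rxs_snoc, rx_eq, pfx_eq]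
      rw [uw_snoc, e5, CutSeq.NJ.P63.KK_rxR μ hμ (fun x => rxs (CutSeq.ext ω) S x.2) (fun x => x.1)
        p.1.val p.2 hb']
      by_cases h : b = p.1.val + 1 ∧ b < n ∧ p.2 = 1
      · rw [if_pos h, if_pos h, ← h.1]
        show _ * K2 ω p.1.val = _
        ring
      · rw [if_neg h, if_neg h]
        show _ * K1 ω b = _
        ring
    rw [sum_congr rfl fun p _ => e4 p, sum_sub_distrib, sum_const, card_univ, nsmul_eq_mul, ← mul_sum]
    show uw B S ω * K1 ω b - _ = _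
    have e6 : (Fintype.card (Lt B) : ℝ) * (uw B S ω / (Fintype.card (Lt B) : ℝ) * K1 ω b)
        = uw B S ω * K1 ω b := by
      field_simp
    rw [e6]
    ring
  rw [sum_congr rfl e3, sum_comm]
  have e7 : ∀ ω : Wd B S, ∑ b ∈ range (n + 1), uw B S ω / (Fintype.card (Lt B) : ℝ) *
        ∑ p : Lt B, (if b = p.1.val + 1 ∧ b < n ∧ p.2 = 1 then K1 ω (p.1.val + 1) - K2 ω p.1.val
          else 0) = uw B S ω / (Fintype.card (Lt B) : ℝ) *
        ∑ β ∈ range (n - 1), (K1 ω (β + 1) - K2 ω β) := by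
    intro ω
    rw [← mul_sum, sum_letters hn (fun β => K1 ω (β + 1) - K2 ω β)]
  rw [sum_congr rfl fun ω _ => e7 ω]
  have e8 : ∀ β ∈ range (n - 1),
      KK (wS B S μ) (fun q => pfx (β + 1) (run q).2) (fun q => (q.1.1, q.2))
      - KK (wS B S μ) (fun q => CutSeq.NJ.P63.Xs β (run q).2) (fun q => (q.1.1, q.2))
      = ∑ ω, uw B S ω * (K1 ω (β + 1) - K2 ω β) := by
    intro β _
    rw [e1, e2, ← sum_sub_distrib]
    exact sum_congr rfl fun ω _ => by ring
  rw [sum_congr rfl e8, sum_comm, mul_sum, card_Lt]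
  refine sum_congr rfl fun ω _ => ?_
  rw [mul_sum, mul_sum]
  exact sum_congr rfl fun β _ => by ring

theorem Dl_run {n : ℕ} (B S β : ℕ) (hβ : β + 1 < n) (μ : Un n × V n → ℝ) (hμ : ∀ x, 0 ≤ μ x) :
    KK (wS B S μ) (fun q => pfx (β + 1) (run q).2) (fun q => (run q).1)
      - KK (wS B S μ) (fun q => CutSeq.NJ.P63.Xs β (run q).2) (fun q => (run q).1)
      = Dl β ((stp B)^[S] μ) := by
  have h1 := KK_run B μ S (fun x => pfx (β + 1) x.2) (fun x => x.1)
  have h2 := KK_run B μ S (fun x => CutSeq.NJ.P63.Xs β x.2) (fun x => x.1)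
  have h3 : KK ((stp B)^[S] μ) (fun x => pfx (β + 1) (rx (β, 1) x.2)) (fun x => x.1)
      = KK ((stp B)^[S] μ) (fun x => CutSeq.NJ.P63.Xs β x.2) (fun x => x.1) :=
    KK_bij _ (stp_it_nonneg B μ hμ S) _ _ (fun x => x.1) (fun _ => CutSeq.NJ.P63.snocE β)
      (fun x _ => by rw [rx_eq, pfx_eq]; exact CutSeq.NJ.P63.pfx_rxR_mid β x.2 hβ)
  unfold Dl
  rw [h1, h2, h3]

theorem drop_step {n : ℕ} (B S : ℕ) (hB : 0 < B) (hn : n ≤ B) (μ : Un n × V n → ℝ)
    (hμ : ∀ x, 0 ≤ μ x) :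
    ∑ b ∈ range (n + 1), (Ph B b μ S - Ph B b μ (S + 1))
      ≤ 1 / (2 * (B : ℝ)) * (∑ β ∈ range (n - 1), Dl β ((stp B)^[S] μ)
          + (FF n μ - FF n ((stp B)^[S] μ))) := by
  have hw := wS_nonneg B S μ hμ
  have hfin : ∀ q q' : (Un n × V n) × Wd B S, wS B S μ q ≠ 0 → wS B S μ q' ≠ 0 →
      (q.1.1, q.2) = (q'.1.1, q'.2) → (run q).1 = (run q').1 := fun q q' _ _ h => run_fst q q' h
  rw [drop_eq B S hB hn μ hμ]
  refine mul_le_mul_of_nonneg_left ?_ (by positivity)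
  set J : ℕ → ℝ := fun b => CutSeq.NJ.P63.Jx (wS B S μ) (fun q => pfx b (run q).2)
    (fun q => (q.1.1, q.2)) (fun q => (run q).1) with hJ
  have h1 : ∀ β ∈ range (n - 1),
      KK (wS B S μ) (fun q => pfx (β + 1) (run q).2) (fun q => (q.1.1, q.2))
      - KK (wS B S μ) (fun q => CutSeq.NJ.P63.Xs β (run q).2) (fun q => (q.1.1, q.2))
      ≤ Dl β ((stp B)^[S] μ) + (J (β + 1) - J β) := by
    intro β hβ
    have hβ' : β + 1 < n := by
      have := mem_range.1 hβ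
      omega
    have h2 := Dl_run B S β hβ' μ hμ
    have h3 := CutSeq.NJ.P63.Jx_pfx_Xs (wS B S μ) hw (fun q => (run q).2) (fun q => (q.1.1, q.2))
      (fun q => (run q).1) hfin β
    have h4 : J β = CutSeq.NJ.P63.Jx (wS B S μ) (fun q => CutSeq.NJ.P63.pfx β (run q).2)
      (fun q => (q.1.1, q.2)) (fun q => (run q).1) := rfl
    rw [← h4] at h3
    have h5 : J (β + 1) = KK (wS B S μ) (fun q => pfx (β + 1) (run q).2) (fun q => (q.1.1, q.2))
      - KK (wS B S μ) (fun q => pfx (β + 1) (run q).2) (fun q => (run q).1) := rfl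
    have h6 : CutSeq.NJ.P63.Jx (wS B S μ) (fun q => CutSeq.NJ.P63.Xs β (run q).2)
      (fun q => (q.1.1, q.2)) (fun q => (run q).1)
      = KK (wS B S μ) (fun q => CutSeq.NJ.P63.Xs β (run q).2) (fun q => (q.1.1, q.2))
      - KK (wS B S μ) (fun q => CutSeq.NJ.P63.Xs β (run q).2) (fun q => (run q).1) := rfl
    linarith
  refine (sum_le_sum h1).trans ?_
  rw [sum_add_distrib, sum_range_sub]
  have h7 : J (n - 1) ≤ J n := CutSeq.NJ.P63.Jx_pfx_mono (wS B S μ) hw (fun q => (run q).2)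
    (fun q => (q.1.1, q.2)) (fun q => (run q).1) hfin (Nat.sub_le n 1) le_rfl
  have h8 : 0 ≤ J 0 := CutSeq.NJ.P63.Jx_nonneg (wS B S μ) hw _ _ _ hfin
  have h9 : J n = FF n μ - FF n ((stp B)^[S] μ) := by
    rw [← Ph_top B S hB μ hμ, ← FF_run]
    rfl
  linarith

end Pool.Agent.NJ.B.F63

namespace Pool.Agent.NJ.B

open Finset Pool.Agent.CutSeq

/-- F1 -/
theorem FF_zero {n : ℕ} (μ : Un n × V n → ℝ) : FF 0 μ = 0 := F63.FF_zero μ

theorem FF_mono {n : ℕ} (μ : Un n × V n → ℝ) (hμ : ∀ x, 0 ≤ μ x) {b c : ℕ} (h : b ≤ c) (hc : c ≤ n) :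
    FF b μ ≤ FF c μ := F63.FF_mono μ hμ h hc

theorem FF_lip {n : ℕ} (μ : Un n × V n → ℝ) (hμ : ∀ x, 0 ≤ μ x) {b c : ℕ} (h : b ≤ c) (hc : c ≤ n) :
    FF c μ ≤ FF b μ + (c - b : ℝ) * Real.log 2 * tot μ := F63.FF_lip μ hμ h hc

/-- F2 -/
theorem Ph_zero {n : ℕ} (B b : ℕ) (μ : Un n × V n → ℝ) (_hμ : ∀ x, 0 ≤ μ x) :
    Ph B b μ 0 = FF b μ := F63.Ph_zero B b μ

theorem Ph_top {n : ℕ} (B S : ℕ) (hB : 0 < B) (μ : Un n × V n → ℝ) (hμ : ∀ x, 0 ≤ μ x) :
    Ph B n μ S = FF n μ := F63.Ph_top B S hB μ hμ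

theorem Ph_mono {n : ℕ} (B S : ℕ) (μ : Un n × V n → ℝ) (hμ : ∀ x, 0 ≤ μ x) {b c : ℕ} (h : b ≤ c)
    (hc : c ≤ n) : Ph B b μ S ≤ Ph B c μ S := F63.Ph_mono B S μ hμ h hc

/-- data processing -/
theorem FF_le_Ph {n : ℕ} (B S b : ℕ) (μ : Un n × V n → ℝ) (hμ : ∀ x, 0 ≤ μ x) :
    FF b ((stp B)^[S] μ) ≤ Ph B b μ S := F63.FF_le_Ph B S b μ hμ

/-- F3: the drop in one step -/
theorem drop_step {n : ℕ} (B S : ℕ) (hB : 0 < B) (hn : n ≤ B) (μ : Un n × V n → ℝ)
    (hμ : ∀ x, 0 ≤ μ x) :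
    ∑ b ∈ range (n + 1), (Ph B b μ S - Ph B b μ (S + 1))
      ≤ 1 / (2 * (B : ℝ)) * (∑ β ∈ range (n - 1), Dl β ((stp B)^[S] μ)
          + (FF n μ - FF n ((stp B)^[S] μ))) := F63.drop_step B S hB hn μ hμ

/-- F4 -/
theorem FF_time {n : ℕ} (B S : ℕ) (hB : 0 < B) (μ : Un n × V n → ℝ) (hμ : ∀ x, 0 ≤ μ x) :
    FF n ((stp B)^[S] μ) ≤ FF n μ := F63.FF_time B S hB μ hμ

end Pool.Agent.NJ.B
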