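import Pool.Agent.NJ.B.Defs16
import Pool.Agent.NJ.RL13

/-!
S19271, target B, group M of the statements of helper16: right letters and the law of the pair
(array, next row).
-/

set_option autoImplicit false

namespace Pool.Agent.NJ.B

open Finset Pool.Agent.CutSeq

/-! #### letters -/

theorem rx_rx {n : ℕ} (p : ℕ × ZMod 2) (R : V n) : rx p (rx p R) = R := by
  funext k
  unfold rx
  by_cases hk : k.val = p.1
  · simp only [if_pos hk]
    by_cases h : k.val + 1 < n
    · simp only [dif_pos h]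
      rw [if_neg (by omega), add_assoc, CharTwo.add_self_eq_zero, add_zero]
    · simp only [dif_neg h]
      rw [add_assoc, CharTwo.add_self_eq_zero, add_zero]
  · simp only [if_neg hk]

theorem rxU_rxU {n : ℕ} (p : ℕ × ZMod 2) (A : Un n) : rxU p (rxU p A) = A := by
  funext k
  exact rx_rx p (A k)

/-- M5: involutions -/
theorem rxP_rxP {n : ℕ} (p : ℕ × ZMod 2) (x : Un n × V n) : rxP p (rxP p x) = x :=
  Prod.ext (rxU_rxU p x.1) (rx_rx p x.2)

/-- the letter as a permutation of the pairs -/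
def rxPE {n : ℕ} (p : ℕ × ZMod 2) : Un n × V n ≃ Un n × V n :=
  ⟨rxP p, rxP p, rxP_rxP p, rxP_rxP p⟩

theorem rxP_eq_iff {n : ℕ} (p : ℕ × ZMod 2) (x y : Un n × V n) : rxP p x = y ↔ x = rxP p y := by
  constructor
  · intro h
    rw [← h, rxP_rxP]
  · intro h
    rw [h, rxP_rxP]

theorem sum_rxP {n : ℕ} (p : ℕ × ZMod 2) (g : Un n × V n → ℝ) : ∑ x, g (rxP p x) = ∑ x, g x :=
  Equiv.sum_comp (rxPE p) g

/-- `rx` of this file is `rx` of `RL13` -/
theorem rx_eq {n : ℕ} (p : ℕ × ZMod 2) (R : V n) : rx p R = CutSeq.NJ.rx p R := by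
  funext k
  unfold rx CutSeq.NJ.rx
  by_cases h : k.val = p.1
  · rw [if_pos h, if_pos h]
  · rw [if_neg h, if_neg h, add_zero]

theorem rxU_eq {n : ℕ} (p : ℕ × ZMod 2) (A : Un n) : rxU p A = CutSeq.NJ.rxU p A := by
  funext k
  exact rx_eq p (A k)

theorem pfx_eq {n : ℕ} (b : ℕ) (R : V n) : pfx b R = CutSeq.NJ.pfx b R := rfl

theorem pfx_self {n : ℕ} (R : V n) : pfx n R = R := by
  funext k
  exact dif_pos k.isLt

/-! #### M1 -/

theorem shift_cons (p : ℕ × ZMod 2) (α : Seq) :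
    shift (fun i => if i = 0 then p else α (i - 1)) 1 = α := by
  funext i
  show (if 1 + i = 0 then p else α (1 + i - 1)) = α i
  rw [if_neg (by omega)]
  congr 1
  omega

theorem row_cons (p : ℕ × ZMod 2) (α : Seq) (l n : ℕ) :
    row (fun i => if i = 0 then p else α (i - 1)) (l + 1) n = rx p (row α l n) := by
  funext j
  show Mst (fun i => if i = 0 then p else α (i - 1)) (l + 1) n j.val = _
  rw [CutSeq.NJ.Mst_first, shift_cons]
  unfold rx
  show Mst α l n j.val + (if j.val = p.1 then p.2 * Mst α l n (p.1 + 1) else 0) = _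
  by_cases h : j.val = p.1
  · rw [if_pos h, if_pos h, ← h]
    show _ = Mst α l n j.val + _
    congr 2
    by_cases h' : j.val + 1 < n
    · rw [dif_pos h']
      rfl
    · rw [dif_neg h', show j.val + 1 = n by have := j.isLt; omega, Mst_diag]
  · rw [if_neg h, if_neg h, add_zero]
    rfl

/-- M1: prepending a letter -/
theorem mm_cons (p : ℕ × ZMod 2) (α : Seq) (l n : ℕ) :
    mm (fun i => if i = 0 then p else α (i - 1)) (l + 1) n = rxU p (mm α l n) ∧
    row (fun i => if i = 0 then p else α (i - 1)) (l + 1) n = rx p (row α l n) :=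
  ⟨funext fun k => row_cons p α l k.val, row_cons p α l n⟩

/-- M1 for words -/
theorem pair_cns {B l n : ℕ} (p : Fin B × ZMod 2) (ω : Wd B l) :
    (mm (ext (CutSeq.NJ.cns p ω)) (l + 1) n, row (ext (CutSeq.NJ.cns p ω)) (l + 1) n)
      = rxP (p.1.val, p.2) (mm (ext ω) l n, row (ext ω) l n) := by
  have h : ∀ i < l + 1, ext (CutSeq.NJ.cns p ω) i
      = (fun i => if i = 0 then (p.1.val, p.2) else ext ω (i - 1)) i := by
    intro i hi
    rcases i with _ | i
    · exact CutSeq.NJ.ext_cns_zero p ω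
    · show _ = (if i + 1 = 0 then (p.1.val, p.2) else ext ω (i + 1 - 1))
      rw [if_neg (by omega), Nat.add_sub_cancel]
      exact CutSeq.NJ.ext_cns_succ p ω i (by omega)
  have h1 : ∀ m, mm (ext (CutSeq.NJ.cns p ω)) (l + 1) m
      = rxU (p.1.val, p.2) (mm (ext ω) l m) := by
    intro m
    rw [Brg.mm_congr h]
    exact (mm_cons (p.1.val, p.2) (ext ω) l m).1
  have h2 : row (ext (CutSeq.NJ.cns p ω)) (l + 1) n = rx (p.1.val, p.2) (row (ext ω) l n) :=
    congrFun (h1 (n + 1)) ⟨n, Nat.lt_succ_self n⟩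
  exact Prod.ext (h1 n) h2

/-! #### M2, M3 -/

/-- M3 -/
theorem lwp_nonneg (B l n : ℕ) (x : Un n × V n) : 0 ≤ lwp B l n x := by
  refine mass_nonneg _ (fun ω => ?_) _ _
  rw [Brg.uw_eq]
  positivity

theorem lwp_tot (B l n : ℕ) (hB : 0 < B) : tot (lwp B l n) = 1 := by
  classical
  unfold tot lwp
  rw [Brg.sum_mass, Brg.tot_uw B l hB]

theorem card_Lt (B : ℕ) : (Fintype.card (Lt B) : ℝ) = (B : ℝ) * 2 := by
  rw [Fintype.card_prod, ZMod.card, Fintype.card_fin]
  push_cast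
  rfl

/-- splitting off the first letter -/
def cE (B l : ℕ) : Lt B × Wd B l ≃ Wd B (l + 1) where
  toFun p := CutSeq.NJ.cns p.1 p.2
  invFun q := (q 0, fun i => q i.succ)
  left_inv p := rfl
  right_inv q := by
    funext i
    refine Fin.cases ?_ (fun i => ?_) i
    · rfl
    · rfl

/-- M2 -/
theorem lwp_stp (B l n : ℕ) (hB : 0 < B) : stp B (lwp B l n) = lwp B (l + 1) n := by
  classical
  have hB' : (0 : ℝ) < B := by exact_mod_cast hB
  funext x
  have h0 : lwp B (l + 1) n x = ∑ p : Lt B, ∑ ω : Wd B l,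
      if (mm (ext (CutSeq.NJ.cns p ω)) (l + 1) n, row (ext (CutSeq.NJ.cns p ω)) (l + 1) n) = x
        then uw B (l + 1) (CutSeq.NJ.cns p ω) else 0 := by
    unfold lwp
    rw [Brg.mass_eq, ← Fintype.sum_prod_type']
    exact ((cE B l).sum_comp (fun ω : Wd B (l + 1) =>
      if (mm (ext ω) (l + 1) n, row (ext ω) (l + 1) n) = x then uw B (l + 1) ω else 0)).symm
  rw [h0]
  unfold stp lwp
  rw [card_Lt, Finset.sum_div]
  refine sum_congr rfl fun p _ => ?_
  rw [Brg.mass_eq, Finset.sum_div]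
  refine sum_congr rfl fun ω _ => ?_
  rw [pair_cns p ω, Brg.uw_eq, Brg.uw_eq]
  by_cases h : (mm (ext ω) l n, row (ext ω) l n) = rxP (p.1.val, p.2) x
  · rw [if_pos h, if_pos ((rxP_eq_iff _ _ _).2 h), pow_succ]
    field_simp
  · rw [if_neg h, if_neg (fun e => h ((rxP_eq_iff _ _ _).1 e)), zero_div]

/-- after `S` right letters -/
theorem lwp_iter (B l n S : ℕ) (hB : 0 < B) : (stp B)^[S] (lwp B l n) = lwp B (l + S) n := by
  induction S with
  | zero => rfl
  | succ S ih => rw [Function.iterate_succ_apply', ih, lwp_stp B (l + S) n hB]; rfl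

/-! #### M4 -/

/-- the law of a function of `Z` under the law of `Z` -/
theorem mass_mass {Ω A C : Type*} [Fintype Ω] [Fintype A] (w : Ω → ℝ) (Z : Ω → A) (g : A → C)
    (c : C) : mass (fun a => mass w Z a) g c = mass w (fun ω => g (Z ω)) c := by
  classical
  rw [Brg.mass_eq, Brg.mass_eq]
  have h := Brg.sum_mass_mul w Z (fun a => if g a = c then (1 : ℝ) else 0)
  simp only [mul_ite, mul_one, mul_zero] at h
  exact h

/-- `KK` under the law of the pair -/
theorem KK_lwp {A C : Type*} [Fintype A] (B l n : ℕ) (X : Un n × V n → A) (Y : Un n × V n → C) :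
    KK (lwp B l n) X Y = KK (uw B l) (fun ω => X (mm (ext ω) l n, row (ext ω) l n))
      (fun ω => Y (mm (ext ω) l n, row (ext ω) l n)) :=
  KK_law _ _ _ _ _ _ fun a c => mass_mass (uw B l) (fun ω => (mm (ext ω) l n, row (ext ω) l n))
    (fun x => (X x, Y x)) (a, c)

theorem FF_lwp (B l n b : ℕ) : FF b (lwp B l n)
    = KK (uw B l) (fun ω => pfx b (row (ext ω) l n)) (fun ω => mm (ext ω) l n) :=
  KK_lwp B l n _ _

theorem uw_nonneg' (B l : ℕ) (ω : Wd B l) : 0 ≤ uw B l ω := by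
  rw [Brg.uw_eq]
  positivity

theorem K0_lwp (B l n : ℕ) : K0 (lwp B l n) id = K0 (uw B l) (fun ω => mm (ext ω) l (n + 1)) := by
  unfold K0
  rw [KK_lwp]
  exact (KK_bij (uw B l) (uw_nonneg' B l) (fun ω => (mm (ext ω) l n, row (ext ω) l n))
    (fun ω => mm (ext ω) l (n + 1)) (fun _ => ()) (fun _ => CutSeq.NJ.jnE n)
    (fun ω _ => CutSeq.NJ.mm_jnU _ _)).symm

theorem FF_top (B l n : ℕ) : FF n (lwp B l n)
    = K0 (uw B l) (fun ω => mm (ext ω) l (n + 1)) - K0 (uw B l) (fun ω => mm (ext ω) l n) := by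
  have hw := uw_nonneg' B l
  have h1 := KK_chain (uw B l) hw (fun ω => mm (ext ω) l n) (fun ω => row (ext ω) l n)
    (fun _ => ())
  have h2 : K0 (uw B l) (fun ω => mm (ext ω) l (n + 1))
      = KK (uw B l) (fun ω => (mm (ext ω) l n, row (ext ω) l n)) (fun _ => ()) :=
    KK_bij (uw B l) hw (fun ω => (mm (ext ω) l n, row (ext ω) l n))
      (fun ω => mm (ext ω) l (n + 1)) (fun _ => ()) (fun _ => CutSeq.NJ.jnE n)
      (fun ω _ => CutSeq.NJ.mm_jnU _ _)
  have h3 : KK (uw B l) (fun ω => row (ext ω) l n) (fun ω => (mm (ext ω) l n, ()))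
      = KK (uw B l) (fun ω => row (ext ω) l n) (fun ω => mm (ext ω) l n) :=
    le_antisymm (KK_finer _ hw _ _ _ fun ω ω' _ _ h => Prod.ext h rfl)
      (KK_finer _ hw _ _ _ fun ω ω' _ _ h => (Prod.mk.inj h).1)
  have h4 : FF n (lwp B l n) = KK (uw B l) (fun ω => row (ext ω) l n) (fun ω => mm (ext ω) l n) := by
    rw [FF_lwp]
    simp only [pfx_self]
  rw [h4, h2, h1, h3]
  exact (add_sub_cancel_left _ _).symm

/-- M5 -/
theorem stp_nonneg {n : ℕ} (B : ℕ) (μ : Un n × V n → ℝ) (hμ : ∀ x, 0 ≤ μ x) (x : Un n × V n) :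
    0 ≤ stp B μ x :=
  div_nonneg (sum_nonneg fun _ _ => hμ _) (Nat.cast_nonneg _)

theorem stp_tot {n : ℕ} (B : ℕ) (hB : 0 < B) (μ : Un n × V n → ℝ) : tot (stp B μ) = tot μ := by
  have hB' : (0 : ℝ) < B := by exact_mod_cast hB
  unfold tot stp
  rw [← Finset.sum_div, Finset.sum_comm, Finset.sum_congr rfl fun p _ => sum_rxP _ μ, sum_const,
    card_univ, nsmul_eq_mul, card_Lt]
  field_simp

end Pool.Agent.NJ.B
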