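import Pool.Agent.NJ.B.C58
import Pool.Agent.NJ.B.F63
import Pool.Agent.NJ.B.Br13

/-!
S19271, target B, row C7 (`drop_le`) from C5, C6 and the statements of group F (helper58).
-/

set_option autoImplicit false

namespace Pool.Agent.NJ.B

open Finset Pool.Agent.CutSeq Pool.Agent.CutSeq.NJ

/-- sum over the bonds, one time -/
theorem sum_Dl_le58 {n : ℕ} (B : ℕ) (hB : 0 < B) (hn : n ≤ B) (μ : Un n × V n → ℝ)
    (hμ : ∀ x, 0 ≤ μ x)
    (hmono : ∀ b c : ℕ, b ≤ c → c ≤ n → FF b μ ≤ FF c μ) :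
    ∑ β ∈ range (n - 1), Dl β μ ≤
      16 * (Real.sqrt (B * (K0 μ id - K0 (stp B μ) id)) * Real.sqrt (2 * FF n μ)) := by
  have hF0 : ∀ b, 0 ≤ FF b μ := fun b => KK_nonneg μ hμ _ _
  have h1 : ∑ β ∈ range (n - 1), Dl β μ ≤
      16 * ∑ β ∈ range (n - 1), Real.sqrt (phi β μ) * Real.sqrt (FF (β + 2) μ - FF β μ) := by
    rw [Finset.mul_sum]
    refine Finset.sum_le_sum fun β hβ => ?_
    have hβ' := Finset.mem_range.1 hβ
    rw [← Real.sqrt_mul (phi_nonneg58 β μ hμ)]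
    exact Dl_le16 β (by omega) μ hμ
  have h2 : ∑ β ∈ range (n - 1), Real.sqrt (phi β μ) * Real.sqrt (FF (β + 2) μ - FF β μ) ≤
      Real.sqrt (∑ β ∈ range (n - 1), phi β μ) *
        Real.sqrt (∑ β ∈ range (n - 1), (FF (β + 2) μ - FF β μ)) := by
    have h3 := Real.sum_mul_le_sqrt_mul_sqrt (range (n - 1)) (fun β => Real.sqrt (phi β μ))
      (fun β => Real.sqrt (FF (β + 2) μ - FF β μ))
    have h4 : ∑ β ∈ range (n - 1), Real.sqrt (phi β μ) ^ 2 = ∑ β ∈ range (n - 1), phi β μ :=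
      Finset.sum_congr rfl fun β _ => Real.sq_sqrt (phi_nonneg58 β μ hμ)
    have h5 : ∑ β ∈ range (n - 1), Real.sqrt (FF (β + 2) μ - FF β μ) ^ 2 =
        ∑ β ∈ range (n - 1), (FF (β + 2) μ - FF β μ) :=
      Finset.sum_congr rfl fun β hβ => Real.sq_sqrt (by
        have hβ' := Finset.mem_range.1 hβ
        have := hmono β (β + 2) (by omega) (by omega)
        linarith)
    rw [h4, h5] at h3
    exact h3
  have h6 : ∑ β ∈ range (n - 1), (FF (β + 2) μ - FF β μ) ≤ 2 * FF n μ := by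
    have h7 : ∀ m : ℕ, ∑ β ∈ range m, (FF (β + 2) μ - FF β μ)
        = FF (m + 1) μ + FF m μ - FF 1 μ - FF 0 μ := by
      intro m
      induction m with
      | zero => simp
      | succ m ih =>
          rw [Finset.sum_range_succ, ih]
          ring
    rcases Nat.eq_zero_or_pos n with h | h
    · subst h
      simp only [Nat.zero_sub, Finset.range_zero, Finset.sum_empty]
      linarith [hF0 0]
    · rw [h7 (n - 1), Nat.sub_add_cancel h]
      have := hmono (n - 1) n (by omega) le_rfl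
      linarith [hF0 0, hF0 1]
  have h8 := prod_step B hB hn μ hμ
  have h9 : Real.sqrt (∑ β ∈ range (n - 1), phi β μ) *
        Real.sqrt (∑ β ∈ range (n - 1), (FF (β + 2) μ - FF β μ)) ≤
      Real.sqrt (B * (K0 μ id - K0 (stp B μ) id)) * Real.sqrt (2 * FF n μ) :=
    mul_le_mul (Real.sqrt_le_sqrt h8) (Real.sqrt_le_sqrt h6) (Real.sqrt_nonneg _)
      (Real.sqrt_nonneg _)
  linarith

/-- (UP) from the statements of group F, constants `12` and `1 / 2` -/
theorem drop_le_of58 {n : ℕ} (B S : ℕ) (hB : 0 < B) (hn : n ≤ B) (μ : Un n × V n → ℝ)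
    (hnn : ∀ τ x, 0 ≤ (stp B)^[τ] μ x)
    (hzero : ∀ b, Ph B b μ 0 = FF b μ)
    (hmono : ∀ τ, ∀ b c : ℕ, b ≤ c → c ≤ n → FF b ((stp B)^[τ] μ) ≤ FF c ((stp B)^[τ] μ))
    (htime : ∀ τ τ' : ℕ, τ ≤ τ' → FF n ((stp B)^[τ'] μ) ≤ FF n ((stp B)^[τ] μ))
    (hstep : ∀ τ, ∑ b ∈ range (n + 1), (Ph B b μ τ - Ph B b μ (τ + 1))
      ≤ 1 / (2 * (B : ℝ)) * (∑ β ∈ range (n - 1), Dl β ((stp B)^[τ] μ)
          + (FF n μ - FF n ((stp B)^[τ] μ)))) :
    ∑ b ∈ range (n + 1), (FF b μ - Ph B b μ S)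
      ≤ 12 * Real.sqrt ((K0 μ id - K0 ((stp B)^[S] μ) id) * ((S : ℝ) / B) * FF n μ)
        + (S : ℝ) / (2 * B) * (FF n μ - FF n ((stp B)^[S] μ)) := by
  have hB' : (0 : ℝ) < B := by exact_mod_cast hB
  set K : ℕ → ℝ := fun τ => K0 ((stp B)^[τ] μ) id with hK
  set f : ℕ → ℝ := fun τ => FF n ((stp B)^[τ] μ) with hf
  have hf0 : f 0 = FF n μ := rfl
  have hfn : ∀ τ, 0 ≤ f τ := fun τ => KK_nonneg _ (hnn τ) _ _
  have hKa : ∀ τ, K (τ + 1) ≤ K τ := by
    intro τ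
    have h1 := prod_step B hB hn _ (hnn τ)
    have h2 : 0 ≤ ∑ β ∈ range (n - 1), phi β ((stp B)^[τ] μ) :=
      Finset.sum_nonneg fun β _ => phi_nonneg58 β _ (hnn τ)
    have h3 : K (τ + 1) = K0 (stp B ((stp B)^[τ] μ)) id := by
      simp only [hK]
      rw [Function.iterate_succ_apply']
    have h4 : 0 ≤ (B : ℝ) * (K τ - K (τ + 1)) := by
      rw [h3]
      exact h2.trans h1
    have := nonneg_of_mul_nonneg_right h4 hB'
    linarith
  -- telescoping
  have htel : ∑ b ∈ range (n + 1), (FF b μ - Ph B b μ S) =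
      ∑ τ ∈ range S, ∑ b ∈ range (n + 1), (Ph B b μ τ - Ph B b μ (τ + 1)) := by
    rw [Finset.sum_comm]
    refine Finset.sum_congr rfl fun b _ => ?_
    rw [Finset.sum_range_sub', hzero]
  have hone : ∀ τ ∈ range S, ∑ b ∈ range (n + 1), (Ph B b μ τ - Ph B b μ (τ + 1)) ≤
      (8 * Real.sqrt 2 / Real.sqrt B) * Real.sqrt (f 0) * Real.sqrt (K τ - K (τ + 1)) +
        1 / (2 * B) * (f 0 - f S) := by
    intro τ hτ
    have hτ' := (Finset.mem_range.1 hτ).le
    refine (hstep τ).trans ?_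
    have h1 := sum_Dl_le58 B hB hn _ (hnn τ) (hmono τ)
    have h2 : K0 (stp B ((stp B)^[τ] μ)) id = K (τ + 1) := by
      simp only [hK]
      rw [Function.iterate_succ_apply']
    rw [h2] at h1
    have h3 : Real.sqrt (B * (K τ - K (τ + 1))) * Real.sqrt (2 * f τ) ≤
        Real.sqrt B * Real.sqrt (K τ - K (τ + 1)) * (Real.sqrt 2 * Real.sqrt (f 0)) := by
      rw [Real.sqrt_mul hB'.le, Real.sqrt_mul (by norm_num : (0 : ℝ) ≤ 2)]
      refine mul_le_mul_of_nonneg_left ?_ (by positivity)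
      exact mul_le_mul_of_nonneg_left (Real.sqrt_le_sqrt (htime 0 τ (Nat.zero_le _)))
        (Real.sqrt_nonneg _)
    have h4 : f 0 - f τ ≤ f 0 - f S := by
      have := htime τ S hτ'
      simp only [hf]
      linarith
    have h6 : ∑ β ∈ range (n - 1), Dl β ((stp B)^[τ] μ) + (FF n μ - FF n ((stp B)^[τ] μ)) ≤
        16 * (Real.sqrt B * Real.sqrt (K τ - K (τ + 1)) * (Real.sqrt 2 * Real.sqrt (f 0))) +
          (f 0 - f S) := by
      have h7 : FF n μ - FF n ((stp B)^[τ] μ) = f 0 - f τ := rfl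
      rw [h7]
      have h8 : K τ = K0 ((stp B)^[τ] μ) id := rfl
      rw [← h8] at h1
      have h9 : f τ = FF n ((stp B)^[τ] μ) := rfl
      rw [← h9] at h1
      linarith
    have h10 : 1 / (2 * (B : ℝ)) * (16 * (Real.sqrt B * Real.sqrt (K τ - K (τ + 1)) *
        (Real.sqrt 2 * Real.sqrt (f 0)))) = (8 * Real.sqrt 2 / Real.sqrt B) * Real.sqrt (f 0) *
          Real.sqrt (K τ - K (τ + 1)) := by
      have hs := Real.mul_self_sqrt hB'.le
      have hs0 : Real.sqrt B ≠ 0 := (Real.sqrt_pos.2 hB').ne'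
      have hs1 : (B : ℝ) = Real.sqrt B * Real.sqrt B := hs.symm
      have : 1 / (2 * (B : ℝ)) * (16 * (Real.sqrt B * Real.sqrt (K τ - K (τ + 1)) *
        (Real.sqrt 2 * Real.sqrt (f 0)))) = (Real.sqrt B / B) * (8 * Real.sqrt 2 *
          Real.sqrt (f 0) * Real.sqrt (K τ - K (τ + 1))) := by
        field_simp
        ring
      rw [this]
      have h11 : Real.sqrt B / B = 1 / Real.sqrt B := by
        rw [div_eq_div_iff hB'.ne' hs0, one_mul, hs]
      rw [h11]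
      ring
    have h12 := mul_le_mul_of_nonneg_left h6 (show 0 ≤ 1 / (2 * (B : ℝ)) by positivity)
    rw [mul_add (1 / (2 * (B : ℝ))) (16 * (Real.sqrt B * Real.sqrt (K τ - K (τ + 1)) *
      (Real.sqrt 2 * Real.sqrt (f 0)))) (f 0 - f S), h10] at h12
    exact h12
  rw [htel]
  refine (Finset.sum_le_sum hone).trans ?_
  rw [Finset.sum_add_distrib, ← Finset.mul_sum, Finset.sum_const, Finset.card_range, nsmul_eq_mul]
  -- Cauchy-Schwarz in time
  have hcs : ∑ τ ∈ range S, Real.sqrt (K τ - K (τ + 1)) ≤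
      Real.sqrt S * Real.sqrt (K 0 - K S) := by
    have h1 := Real.sum_mul_le_sqrt_mul_sqrt (range S) (fun _ => (1 : ℝ))
      (fun τ => Real.sqrt (K τ - K (τ + 1)))
    simp only [one_mul, one_pow, Finset.sum_const, Finset.card_range, nsmul_eq_mul, mul_one] at h1
    have h2 : ∑ τ ∈ range S, Real.sqrt (K τ - K (τ + 1)) ^ 2 = K 0 - K S := by
      rw [← Finset.sum_range_sub']
      exact Finset.sum_congr rfl fun τ _ => Real.sq_sqrt (by linarith [hKa τ])
    rw [h2] at h1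
    exact h1
  have h14 : 8 * Real.sqrt 2 / Real.sqrt B * Real.sqrt (f 0) *
      ∑ τ ∈ range S, Real.sqrt (K τ - K (τ + 1)) ≤
      12 * Real.sqrt ((K 0 - K S) * ((S : ℝ) / B) * f 0) := by
    have h15 : 8 * Real.sqrt 2 / Real.sqrt B * Real.sqrt (f 0) *
      ∑ τ ∈ range S, Real.sqrt (K τ - K (τ + 1)) ≤ 8 * Real.sqrt 2 / Real.sqrt B * Real.sqrt (f 0) *
        (Real.sqrt S * Real.sqrt (K 0 - K S)) :=
      mul_le_mul_of_nonneg_left hcs (by positivity)
    have h16 : Real.sqrt ((K 0 - K S) * ((S : ℝ) / B) * f 0) =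
        Real.sqrt (K 0 - K S) * (Real.sqrt S / Real.sqrt B) * Real.sqrt (f 0) := by
      have hKS : 0 ≤ K 0 - K S := by
        rw [← Finset.sum_range_sub']
        exact Finset.sum_nonneg fun τ _ => by linarith [hKa τ]
      rw [Real.sqrt_mul (mul_nonneg hKS (by positivity)), Real.sqrt_mul hKS,
        Real.sqrt_div (by positivity)]
    have h17 : Real.sqrt 2 ≤ 3 / 2 := by
      rw [Real.sqrt_le_left (by norm_num)]
      norm_num
    rw [h16]
    refine h15.trans ?_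
    have h18 : 8 * Real.sqrt 2 / Real.sqrt B * Real.sqrt (f 0) *
        (Real.sqrt S * Real.sqrt (K 0 - K S)) = 8 * Real.sqrt 2 * (Real.sqrt (K 0 - K S) *
          (Real.sqrt S / Real.sqrt B) * Real.sqrt (f 0)) := by ring
    rw [h18]
    refine mul_le_mul_of_nonneg_right ?_ (by positivity)
    linarith
  have h19 : (S : ℝ) * (1 / (2 * B) * (f 0 - f S)) = (S : ℝ) / (2 * B) * (FF n μ - FF n ((stp B)^[S] μ)) := by
    simp only [hf]
    rw [Function.iterate_zero, id]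
    ring
  rw [h19]
  have h20 : 12 * Real.sqrt ((K 0 - K S) * ((S : ℝ) / B) * f 0) =
      12 * Real.sqrt ((K0 μ id - K0 ((stp B)^[S] μ) id) * ((S : ℝ) / B) * FF n μ) := rfl
  linarith

/-- C7 = (UP): total drop, constants `12` and `1 / 2` -/
theorem drop_le12 {n : ℕ} (B S : ℕ) (hB : 0 < B) (hn : n ≤ B) (μ : Un n × V n → ℝ)
    (hμ : ∀ x, 0 ≤ μ x) :
    ∑ b ∈ range (n + 1), (FF b μ - Ph B b μ S)
      ≤ 12 * Real.sqrt ((K0 μ id - K0 ((stp B)^[S] μ) id) * ((S : ℝ) / B) * FF n μ)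
        + (S : ℝ) / (2 * B) * (FF n μ - FF n ((stp B)^[S] μ)) := by
  have hnn : ∀ τ x, 0 ≤ (stp B)^[τ] μ x := fun τ => F63.stp_it_nonneg B μ hμ τ
  refine drop_le_of58 B S hB hn μ hnn (fun b => Ph_zero B b μ hμ)
    (fun τ b c h hc => FF_mono _ (hnn τ) h hc) (fun τ τ' h => ?_)
    (fun τ => drop_step B τ hB hn μ hμ)
  obtain ⟨d, rfl⟩ := Nat.exists_eq_add_of_le h
  rw [Nat.add_comm τ d, Function.iterate_add_apply]
  exact FF_time B d hB _ (hnn τ)

/-- C7 = (UP): total drop -/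
theorem drop_le {n : ℕ} (B S : ℕ) (hB : 0 < B) (hn : n ≤ B) (μ : Un n × V n → ℝ)
    (hμ : ∀ x, 0 ≤ μ x) :
    ∑ b ∈ range (n + 1), (FF b μ - Ph B b μ S)
      ≤ 60 * Real.sqrt ((K0 μ id - K0 ((stp B)^[S] μ) id) * ((S : ℝ) / B) * FF n μ)
        + (S : ℝ) / B * (FF n μ - FF n ((stp B)^[S] μ)) := by
  have hB' : (0 : ℝ) < B := by exact_mod_cast hB
  have h1 := drop_le12 B S hB hn μ hμ
  have h2 := FF_time B S hB μ hμ
  have h3 := Real.sqrt_nonneg ((K0 μ id - K0 ((stp B)^[S] μ) id) * ((S : ℝ) / B) * FF n μ)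
  have h4 : (S : ℝ) / (2 * B) * (FF n μ - FF n ((stp B)^[S] μ)) ≤
      (S : ℝ) / B * (FF n μ - FF n ((stp B)^[S] μ)) := by
    refine mul_le_mul_of_nonneg_right ?_ (by linarith)
    rw [div_le_div_iff₀ (by positivity) hB']
    have : (0 : ℝ) ≤ S * B := by positivity
    nlinarith
  linarith

/-- **UPM** in the `Ph` form -/
theorem upm_lwp58 (B l n S : ℕ) (hB : 0 < B) (hn : n ≤ B) :
    ∑ b ∈ range (n + 1), (FF b (lwp B l n) - Ph B b (lwp B l n) S)
      ≤ 12 * Real.sqrt ((S : ℝ) / B * FF n (lwp B l n) *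
          (K0 (uw B l) (fun ω => mm (ext ω) l (n + 1))
            - K0 (uw B (l + S)) (fun ω => mm (ext ω) (l + S) (n + 1))))
        + (S : ℝ) / (2 * B) * (FF n (lwp B l n) - FF n (lwp B (l + S) n)) := by
  have h := drop_le12 B S hB hn (lwp B l n) (lwp_nonneg B l n)
  rw [lwp_iter B l n S hB, K0_lwp, K0_lwp] at h
  refine h.trans (le_of_eq ?_)
  congr 3
  ring

/-- **UPM**, model form (`CutSeq.NJ.w2`, `CutSeq.NJ.Rt` of RL13) -/
theorem upm58 (B l n S : ℕ) (hB : 0 < B) (hn : n ≤ B) :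
    ∑ b ∈ range (n + 1), (KK (uw B l) (fun ω => CutSeq.NJ.pfx b (row (ext ω) l n))
        (fun ω => mm (ext ω) l n) - KK (CutSeq.NJ.w2 B l S)
        (fun q => CutSeq.NJ.pfx b (CutSeq.NJ.Rt n q)) (fun q => (mm (ext q.1) l n, q.2)))
      ≤ 12 * Real.sqrt ((S : ℝ) / B * KK (uw B l) (fun ω => row (ext ω) l n) (fun ω => mm (ext ω) l n) *
          (K0 (uw B l) (fun ω => mm (ext ω) l (n + 1))
            - K0 (uw B (l + S)) (fun ω => mm (ext ω) (l + S) (n + 1))))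
        + (S : ℝ) / (2 * B) * (KK (uw B l) (fun ω => row (ext ω) l n) (fun ω => mm (ext ω) l n)
          - KK (uw B (l + S)) (fun ω => row (ext ω) (l + S) n) (fun ω => mm (ext ω) (l + S) n)) := by
  rw [sum_drop_w2, ← FF_top_w2, ← FF_top_w2]
  exact upm_lwp58 B l n S hB hn

end Pool.Agent.NJ.B
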